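import Mathlib

set_option autoImplicit false

open Set Topology Cardinal

namespace Pool.Agent.Results.MP_e848aa_gt.PerfectImages

universe u

/-- A family of sets is point-countable if every point lies in at most countably many members. -/
def PointCountable {X : Type u} (𝒱 : Set (Set X)) : Prop :=
  ∀ x : X, {V ∈ 𝒱 | x ∈ V}.Countable

/-- The family `𝒰` of subsets of `X` has a point-countable open refinement covering `X`. -/
def HasPointCountableOpenRefinement {X : Type u} [TopologicalSpace X] (𝒰 : Set (Set X)) : Prop :=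
  ∃ 𝒱 : Set (Set X), (∀ V ∈ 𝒱, IsOpen V) ∧ ⋃₀ 𝒱 = Set.univ ∧ PointCountable 𝒱 ∧
    ∀ V ∈ 𝒱, ∃ U ∈ 𝒰, V ⊆ U

/-- A space is metalindelof if every open cover has a point-countable open refinement. -/
def Metalindelof (X : Type u) [TopologicalSpace X] : Prop :=
  ∀ 𝒰 : Set (Set X), (∀ U ∈ 𝒰, IsOpen U) → ⋃₀ 𝒰 = Set.univ →
    HasPointCountableOpenRefinement 𝒰

/-- A closed mapping: a continuous surjection sending closed sets to closed sets. -/
structure ClosedMapping {X Y : Type u} [TopologicalSpace X] [TopologicalSpace Y]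
    (f : X → Y) : Prop where
  continuous : Continuous f
  surjective : Function.Surjective f
  isClosedMap : IsClosedMap f

/-- A perfect mapping: a closed mapping with compact fibres. -/
structure PerfectMapping {X Y : Type u} [TopologicalSpace X] [TopologicalSpace Y]
    (f : X → Y) : Prop extends ClosedMapping f where
  isCompact_fiber : ∀ y : Y, IsCompact (f ⁻¹' {y})

/-- The free subset property `Fr_ω(κ, ω)`: for every assignment `C` of a countable subset of `κ` to
each finite subset of `κ` there is an infinite set `A ⊆ κ` that is free for `C`, that is, no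
`a ∈ A` belongs to `C s` for any finite `s ⊆ A \ {a}`. -/
def FreeSubsets (κ : Type u) : Prop :=
  ∀ C : Finset κ → Set κ, (∀ s, (C s).Countable) →
    ∃ A : Set κ, A.Infinite ∧ ∀ s : Finset κ, (s : Set κ) ⊆ A → ∀ a ∈ A, a ∉ s → a ∉ C s

/-! ### Closing off under a set mapping -/

section Closure

variable {I : Type u} (C : Finset I → Set I)

/-- The finite stages of the closure of a set under `C`. -/
def cl : ℕ → Set I → Set I
  | 0, S => S
  | n + 1, S => cl n S ∪ ⋃ s ∈ {s : Finset I | (s : Set I) ⊆ cl n S}, C s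

/-- The closure of a set under `C`. -/
def clo (S : Set I) : Set I := ⋃ n, cl C n S

theorem cl_mono_nat {S : Set I} {m n : ℕ} (h : m ≤ n) : cl C m S ⊆ cl C n S := by
  induction n, h using Nat.le_induction with
  | base => exact subset_rfl
  | succ n _ ih => exact ih.trans subset_union_left

theorem cl_mono {S T : Set I} (h : S ⊆ T) : ∀ n, cl C n S ⊆ cl C n T
  | 0 => h
  | n + 1 => by
    rintro a (ha | ha)
    · exact Or.inl (cl_mono h n ha)
    · simp only [mem_iUnion, mem_ofPred_eq] at ha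
      obtain ⟨s, hs, has⟩ := ha
      refine Or.inr ?_
      simp only [mem_iUnion, mem_ofPred_eq]
      exact ⟨s, hs.trans (cl_mono h n), has⟩

theorem subset_clo (S : Set I) : S ⊆ clo C S := fun _ ha => mem_iUnion.2 ⟨0, ha⟩

theorem clo_mono {S T : Set I} (h : S ⊆ T) : clo C S ⊆ clo C T := by
  intro a ha
  obtain ⟨n, hn⟩ := mem_iUnion.1 ha
  exact mem_iUnion.2 ⟨n, cl_mono C h n hn⟩

theorem clo_closed {S : Set I} {s : Finset I} (hs : (s : Set I) ⊆ clo C S) : C s ⊆ clo C S := by
  have h1 : ∃ n, (s : Set I) ⊆ cl C n S := by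
    have h2 : ∀ a ∈ s, ∃ n, a ∈ cl C n S := fun a ha => mem_iUnion.1 (hs ha)
    choose! g hg using h2
    refine ⟨s.sup g, fun a ha => ?_⟩
    exact cl_mono_nat C (Finset.le_sup (f := g) ha) (hg a ha)
  obtain ⟨n, hn⟩ := h1
  intro a ha
  refine mem_iUnion.2 ⟨n + 1, Or.inr ?_⟩
  simp only [mem_iUnion, mem_ofPred_eq]
  exact ⟨s, hn, ha⟩

theorem cl_countable (hC : ∀ s, (C s).Countable) {S : Set I} (hS : S.Countable) :
    ∀ n, (cl C n S).Countable
  | 0 => hS
  | n + 1 => by
    have ih := cl_countable hC hS n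
    refine ih.union (Countable.biUnion ?_ fun s _ => hC s)
    have h1 : {s : Set I | s.Finite ∧ s ⊆ cl C n S}.Countable := Set.countable_ofPred_finite_subset ih
    refine (h1.preimage (Finset.coe_injective (α := I))).mono ?_
    intro s hs
    exact ⟨s.finite_toSet, hs⟩

theorem clo_countable (hC : ∀ s, (C s).Countable) {S : Set I} (hS : S.Countable) :
    (clo C S).Countable := countable_iUnion (cl_countable C hC hS)

theorem clo_finitary {S : Set I} {a : I} (ha : a ∈ clo C S) :
    ∃ t : Finset I, (t : Set I) ⊆ S ∧ a ∈ clo C (t : Set I) := by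
  classical
  obtain ⟨n, hn⟩ := mem_iUnion.1 ha
  clear ha
  induction n generalizing a with
  | zero =>
    refine ⟨{a}, ?_, subset_clo C _ (by simp)⟩
    intro b hb
    rw [Finset.coe_singleton, mem_singleton_iff] at hb
    exact hb ▸ hn
  | succ n ih =>
    rcases hn with hn | hn
    · exact ih hn
    · simp only [mem_iUnion, mem_ofPred_eq] at hn
      obtain ⟨s, hs, has⟩ := hn
      have h1 : ∀ b ∈ s, ∃ t : Finset I, (t : Set I) ⊆ S ∧ b ∈ clo C (t : Set I) :=
        fun b hb => ih (hs hb)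
      choose! g hg hg' using h1
      refine ⟨s.biUnion g, ?_, ?_⟩
      · intro x hx
        obtain ⟨b, hb, hx⟩ := Finset.mem_biUnion.1 (Finset.mem_coe.1 hx)
        exact hg b hb hx
      · refine clo_closed C (s := s) ?_ has
        intro b hb
        refine clo_mono C ?_ (hg' b hb)
        intro x hx
        exact Finset.mem_coe.2 (Finset.mem_biUnion.2 ⟨b, hb, hx⟩)

end Closure

/-! ### Induced matchings in compact sets -/

/-- If `K` is compact and `(G u)` (`u ∈ L`) are open sets none of which contains `K`, but every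
finite subset of `K` lies in some `G u`, then there are `u k ∈ L` and `x k ∈ K` with
`x k ∈ G (u j)` if and only if `j ≠ k`. -/
theorem exists_matching {X I : Type u} [TopologicalSpace X] {K : Set X} (hK : IsCompact K)
    {L : Set I} {G : I → Set X} (hG : ∀ u ∈ L, IsOpen (G u)) (hne : ∀ u ∈ L, ¬ K ⊆ G u)
    (hfin : ∀ F : Finset X, (F : Set X) ⊆ K → ∃ u ∈ L, (F : Set X) ⊆ G u) :
    ∃ (v : ℕ → I) (x : ℕ → X), (∀ k, v k ∈ L ∧ x k ∈ K ∧ x k ∉ G (v k)) ∧
      ∀ j k, j ≠ k → x k ∈ G (v j) := by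
  classical
  have hacc : ∃ p ∈ K, ∀ W : Set X, IsOpen W → p ∈ W → ∀ F : Finset X, (F : Set X) ⊆ K →
      ∃ u ∈ L, (F : Set X) ⊆ G u ∧ ∃ x ∈ K, x ∈ W ∧ x ∉ G u := by
    by_contra hcon
    push Not at hcon
    choose! W hWo hpW F hFK hFW using hcon
    obtain ⟨t, htK, htc⟩ := hK.elim_nhds_subcover W fun p hp => (hWo p hp).mem_nhds (hpW p hp)
    obtain ⟨u, huL, hu⟩ := hfin (t.biUnion F) (by
      intro x hx
      obtain ⟨p, hp, hx⟩ := Finset.mem_biUnion.1 (Finset.mem_coe.1 hx)
      exact hFK p (htK p hp) hx)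
    apply hne u huL
    intro x hx
    obtain ⟨p, hp, hxp⟩ := mem_iUnion₂.1 (htc hx)
    refine hFW p (htK p hp) u huL ?_ x hx hxp
    intro z hz
    exact hu (Finset.mem_coe.2 (Finset.mem_biUnion.2 ⟨p, hp, hz⟩))
  obtain ⟨p, hpK, hp⟩ := hacc
  obtain ⟨g, hg1, hg2⟩ := exists_seq_of_forall_finset_exists
    (fun e : I × X => e.1 ∈ L ∧ e.2 ∈ K ∧ e.2 ∉ G e.1 ∧ p ∈ G e.1)
    (fun e e' => e.2 ∈ G e'.1 ∧ e'.2 ∈ G e.1) (by
      intro s hs
      obtain ⟨u, huL, hFu, x, hxK, hxW, hxu⟩ := hp (⋂ e ∈ s, G e.1)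
        (isOpen_biInter_finset fun e he => hG _ (hs e he).1)
        (mem_iInter₂.2 fun e he => (hs e he).2.2.2) (insert p (s.image Prod.snd)) (by
          intro z hz
          rcases Finset.mem_insert.1 (Finset.mem_coe.1 hz) with rfl | hz
          · exact hpK
          · obtain ⟨e, he, rfl⟩ := Finset.mem_image.1 hz
            exact (hs e he).2.1)
      refine ⟨(u, x), ⟨huL, hxK, hxu, hFu (by simp)⟩, fun e he => ⟨hFu ?_, mem_iInter₂.1 hxW e he⟩⟩
      exact Finset.mem_coe.2 (Finset.mem_insert_of_mem (Finset.mem_image_of_mem _ he)))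
  refine ⟨fun k => (g k).1, fun k => (g k).2, fun k => ⟨(hg1 k).1, (hg1 k).2.1, (hg1 k).2.2.1⟩, ?_⟩
  intro j k hjk
  rcases lt_or_gt_of_ne hjk with h | h
  · exact (hg2 j k h).2
  · exact (hg2 k j h).1

/-! ### The positive direction -/

section Positive

theorem shrink {X : Type u} [TopologicalSpace X] (hX : Metalindelof X) {ι : Type u}
    {U : ι → Set X} (hU : ∀ i, IsOpen (U i)) (hc : ⋃ i, U i = Set.univ) :
    ∃ V : ι → Set X, (∀ i, IsOpen (V i)) ∧ (∀ i, V i ⊆ U i) ∧ (⋃ i, V i = Set.univ) ∧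
      ∀ x, {i | x ∈ V i}.Countable := by
  obtain ⟨𝒱, h1, h2, h3, h4⟩ := hX (range U) (by rintro _ ⟨i, rfl⟩; exact hU i)
    (by rw [sUnion_range]; exact hc)
  have h5 : ∀ V ∈ 𝒱, ∃ i, V ⊆ U i := by
    intro V hV
    obtain ⟨_, ⟨i, rfl⟩, hi⟩ := h4 V hV
    exact ⟨i, hi⟩
  rcases isEmpty_or_nonempty ι with hι | hι
  · refine ⟨U, hU, fun i => subset_rfl, hc, fun x => ?_⟩
    exact Set.to_countable _
  choose! g hg using h5
  refine ⟨fun i => ⋃₀ {V ∈ 𝒱 | g V = i}, fun i => isOpen_sUnion fun V hV => h1 V hV.1, ?_, ?_, ?_⟩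
  · rintro i x ⟨V, ⟨hV, rfl⟩, hx⟩
    exact hg V hV hx
  · refine eq_univ_of_forall fun x => ?_
    obtain ⟨V, hV, hx⟩ := mem_sUnion.1 (h2 ▸ mem_univ x : x ∈ ⋃₀ 𝒱)
    exact mem_iUnion.2 ⟨g V, V, ⟨hV, rfl⟩, hx⟩
  · intro x
    refine ((h3 x).image g).mono ?_
    rintro i ⟨V, ⟨hV, rfl⟩, hx⟩
    exact ⟨V, ⟨hV, hx⟩, rfl⟩

variable {X Y : Type u} [TopologicalSpace X] [TopologicalSpace Y] {f : X → Y}

theorem isOpen_core (hf : IsClosedMap f) {G : Set X} (hG : IsOpen G) :
    IsOpen {y : Y | f ⁻¹' {y} ⊆ G} := by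
  have h : {y : Y | f ⁻¹' {y} ⊆ G} = (f '' Gᶜ)ᶜ := by
    ext y
    simp only [mem_ofPred_eq, mem_compl_iff, mem_image, not_exists, not_and]
    constructor
    · intro h x hx hxy
      exact hx (h hxy)
    · intro h x hx
      by_contra hxG
      exact h x hxG hx
  rw [h]
  exact (hf _ hG.isClosed_compl).isOpen_compl

/-- One level of the construction. -/
structure Level (f : X → Y) {I : Type u} (U : I → Set Y) where
  V : Y → Set X
  b : Y → Finset I
  isOpen : ∀ t, IsOpen (V t)
  cover : ⋃ t, V t = Set.univ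
  count : ∀ x, {t | x ∈ V t}.Countable
  good : ∀ t x, x ∈ V t → ∃ u ∈ b t, f x ∈ U u

theorem exists_level_zero (hf : Continuous f) (hX : Metalindelof X) {I : Type u} {U : I → Set Y}
    (hU : ∀ i, IsOpen (U i)) (hc : ⋃ i, U i = Set.univ) : Nonempty (Level f U) := by
  have h1 : ∀ t : Y, ∃ i, t ∈ U i := fun t => mem_iUnion.1 (hc ▸ mem_univ t : t ∈ ⋃ i, U i)
  choose g hg using h1
  obtain ⟨V, h1, h2, h3, h4⟩ := shrink hX (U := fun t => f ⁻¹' (U (g t)))
    (fun t => (hU _).preimage hf) (eq_univ_of_forall fun x => mem_iUnion.2 ⟨f x, hg (f x)⟩)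
  exact ⟨⟨V, fun t => {g t}, h1, h3, h4, fun t x hx => ⟨g t, by simp, h2 t hx⟩⟩⟩

theorem exists_level_succ (hf : PerfectMapping f) (hX : Metalindelof X) {I : Type u}
    {U : I → Set Y} (L : Level f U) :
    ∃ L' : Level f U, ∀ t x x', x ∈ L'.V t → f x' = f x → ∃ q, x' ∈ L.V q ∧ L.b q ⊆ L'.b t := by
  classical
  have h1 : ∀ t : Y, ∃ T : Finset Y, f ⁻¹' {t} ⊆ ⋃ q ∈ T, L.V q := fun t =>
    (hf.isCompact_fiber t).elim_finite_subcover L.V L.isOpen (by rw [L.cover]; exact subset_univ _)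
  choose T hT using h1
  have h2 : ∀ t, IsOpen {z : Y | f ⁻¹' {z} ⊆ ⋃ q ∈ T t, L.V q} := fun t =>
    isOpen_core hf.isClosedMap (isOpen_biUnion fun q _ => L.isOpen q)
  obtain ⟨V, k1, k2, k3, k4⟩ := shrink hX
    (U := fun t => f ⁻¹' {z : Y | f ⁻¹' {z} ⊆ ⋃ q ∈ T t, L.V q})
    (fun t => (h2 t).preimage hf.continuous)
    (eq_univ_of_forall fun x => mem_iUnion.2 ⟨f x, hT (f x)⟩)
  have k5 : ∀ t x x', x ∈ V t → f x' = f x → ∃ q, x' ∈ L.V q ∧ L.b q ⊆ (T t).biUnion L.b := by
    intro t x x' hx hxx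
    have h3 : f ⁻¹' {f x} ⊆ ⋃ q ∈ T t, L.V q := k2 t hx
    obtain ⟨q, hq, hxq⟩ := mem_iUnion₂.1 (h3 hxx)
    exact ⟨q, hxq, Finset.subset_biUnion_of_mem L.b hq⟩
  refine ⟨⟨V, fun t => (T t).biUnion L.b, k1, k3, k4, ?_⟩, k5⟩
  intro t x hx
  obtain ⟨q, hq, hb⟩ := k5 t x x hx rfl
  obtain ⟨u, hu, hxu⟩ := L.good q x hq
  exact ⟨u, hb hu, hxu⟩

theorem positive {I : Type u} (hI : ¬ FreeSubsets I) (hf : PerfectMapping f)
    (hX : Metalindelof X) {U : I → Set Y} (hU : ∀ i, IsOpen (U i))
    (hc : ⋃ i, U i = Set.univ) : HasPointCountableOpenRefinement (range U) := by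
  classical
  unfold FreeSubsets at hI
  push Not at hI
  obtain ⟨C, hC, hfree⟩ := hI
  obtain ⟨L0⟩ := exists_level_zero hf.continuous hX hU hc
  choose nx hnx using fun L : Level f U => exists_level_succ hf hX L
  let L : ℕ → Level f U := fun n => Nat.rec L0 (fun _ l => nx l) n
  have hL : ∀ m t x x', x ∈ (L (m + 1)).V t → f x' = f x →
      ∃ q, x' ∈ (L m).V q ∧ (L m).b q ⊆ (L (m + 1)).b t := fun m => hnx (L m)
  -- labels seen by a point
  let B : X → Set I := fun x => {u | ∃ m t, x ∈ (L m).V t ∧ u ∈ (L m).b t}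
  have hB : ∀ x, (B x).Countable := by
    intro x
    have h1 : B x = ⋃ m, ⋃ t ∈ {t | x ∈ (L m).V t}, ((L m).b t : Set I) := by
      ext u
      simp [B]
    rw [h1]
    exact countable_iUnion fun m => ((L m).count x).biUnion fun t _ => (Finset.countable_toSet _)
  let G : I → Set X := fun u => {x | u ∈ clo C (B x)}
  have hG : ∀ u, IsOpen (G u) := by
    intro u
    rw [isOpen_iff_forall_mem_open]
    intro x hx
    obtain ⟨t, htB, hut⟩ := clo_finitary C hx
    have h1 : ∀ a ∈ t, ∃ m q, x ∈ (L m).V q ∧ a ∈ (L m).b q := fun a ha => htB ha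
    have : Nonempty Y := ⟨f x⟩
    choose! m q hq hm using h1
    refine ⟨⋂ a ∈ t, (L (m a)).V (q a), ?_, isOpen_biInter_finset fun a _ => (L (m a)).isOpen _,
      mem_iInter₂.2 hq⟩
    intro x' hx'
    refine clo_mono C ?_ hut
    intro a ha
    exact ⟨m a, q a, mem_iInter₂.1 hx' a ha, hm a ha⟩
  refine ⟨range fun u => U u ∩ {y | f ⁻¹' {y} ⊆ G u}, ?_, ?_, ?_, ?_⟩
  · rintro _ ⟨u, rfl⟩
    exact (hU u).inter (isOpen_core hf.isClosedMap (hG u))
  · -- the main point: the family covers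
    rw [sUnion_range]
    refine eq_univ_of_forall fun y => ?_
    by_contra hy
    have hy' : ∀ u, y ∈ U u → ¬ f ⁻¹' {y} ⊆ G u := by
      intro u hu hG'
      exact hy (mem_iUnion.2 ⟨u, hu, hG'⟩)
    have key : ∀ (l : List X), (∀ x ∈ l, f x = y) → ∀ m, l.length ≤ m → ∀ t x0, f x0 = y →
        x0 ∈ (L m).V t → ∃ u ∈ (L m).b t, y ∈ U u ∧ ∀ x ∈ l, u ∈ B x := by
      intro l
      induction l with
      | nil =>
        intro _ m _ t x0 hx0 hx0t
        obtain ⟨u, hu, hu'⟩ := (L m).good t x0 hx0t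
        exact ⟨u, hu, hx0 ▸ hu', by simp⟩
      | cons a l ih =>
        intro hl m hm t x0 hx0 hx0t
        obtain ⟨m, rfl⟩ : ∃ m', m = m' + 1 := ⟨m - 1, by
          have : 1 ≤ m := le_trans (by simp) hm
          omega⟩
        have ha : f a = y := hl a (by simp)
        obtain ⟨q, hq, hqb⟩ := hL m t x0 a hx0t (ha.trans hx0.symm)
        obtain ⟨u, hu, hyu, hul⟩ := ih (fun x hx => hl x (by simp [hx])) m
          (by simpa using hm) q a ha hq
        refine ⟨u, hqb hu, hyu, ?_⟩
        intro x hx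
        rcases List.mem_cons.1 hx with rfl | hx
        · exact ⟨m, q, hq, hu⟩
        · exact hul x hx
    obtain ⟨v, x, h1, h2⟩ := exists_matching (hf.isCompact_fiber y) (L := {u | y ∈ U u}) (G := G)
      (fun u _ => hG u) (fun u hu => hy' u hu) (by
        intro F hF
        obtain ⟨x0, hx0⟩ := hf.surjective y
        obtain ⟨t, ht⟩ := mem_iUnion.1
          ((L F.toList.length).cover ▸ mem_univ x0 : x0 ∈ ⋃ t, (L F.toList.length).V t)
        obtain ⟨u, _, hyu, hul⟩ := key F.toList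
          (fun x hx => hF (Finset.mem_coe.2 (Finset.mem_toList.1 hx))) F.toList.length le_rfl
          t x0 hx0 ht
        exact ⟨u, hyu, fun x hx => subset_clo C _
          (hul x (Finset.mem_toList.2 (Finset.mem_coe.1 hx)))⟩)
    have hinj : Function.Injective v := by
      intro j k hjk
      by_contra hne
      have := h2 j k hne
      rw [hjk] at this
      exact (h1 k).2.2 this
    obtain ⟨s, hs, a, ⟨k, rfl⟩, has, haC⟩ := hfree (range v) (infinite_range_of_injective hinj)
    apply (h1 k).2.2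
    have h3 : (s : Set I) ⊆ clo C (B (x k)) := by
      intro b hb
      obtain ⟨j, rfl⟩ := hs hb
      have hjk : j ≠ k := by
        rintro rfl
        exact has hb
      exact h2 j k hjk
    exact clo_closed C h3 haC
  · intro y
    obtain ⟨x0, hx0⟩ := hf.surjective y
    refine ((clo_countable C hC (hB x0)).image fun u => U u ∩ {y | f ⁻¹' {y} ⊆ G u}).mono ?_
    rintro _ ⟨⟨u, rfl⟩, hu⟩
    exact ⟨u, hu.2 hx0, rfl⟩
  · rintro _ ⟨u, rfl⟩
    exact ⟨U u, ⟨u, rfl⟩, inter_subset_left⟩

end Positive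

/-! ### The counterexample -/

section Negative

open Classical

variable {I : Type u}

/-- The points of the domain of the example: the points `bd z j` where `z` is a countably infinite
subset of `I` and `j ∈ z`, and the isolated points `iso a n` where `a` is a countable subset of
`I`. -/
inductive XPt (I : Type u) : Type u
  | bd (z : Set I) (hz : z.Countable) (hi : z.Infinite) (j : I) (hj : j ∈ z) : XPt I
  | iso (a : Set I) (ha : a.Countable) (n : ℕ) : XPt I

/-- The points of the range of the example. -/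
inductive YPt (I : Type u) : Type u
  | bd (z : Set I) (hz : z.Countable) (hi : z.Infinite) : YPt I
  | iso (a : Set I) (ha : a.Countable) (n : ℕ) : YPt I

/-- The visible part of a point. -/
def XPt.vis : XPt I → Set I
  | .bd z _ _ j _ => z \ {j}
  | .iso a _ _ => a

/-- The full part of a point. -/
def XPt.full : XPt I → Set I
  | .bd z _ _ _ _ => z
  | .iso _ _ _ => Set.univ

/-- The full part of a point. -/
def YPt.full : YPt I → Set I
  | .bd z _ _ => z
  | .iso _ _ _ => Set.univ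

/-- The mapping of the example. -/
def proj : XPt I → YPt I
  | .bd z hz hi _ _ => .bd z hz hi
  | .iso a ha n => .iso a ha n

/-- The basic neighbourhoods. -/
def G (c : Finset I) (j : I) : Set (XPt I) :=
  {p | (c : Set I) ⊆ p.full ∧ (c : Set I) \ {j} ⊆ p.vis}

theorem G_mono {c c' : Finset I} (h : c ⊆ c') (j : I) : G c' j ⊆ G c j := fun _ hp =>
  ⟨(Finset.coe_subset.2 h).trans hp.1, (sdiff_subset_sdiff_left (Finset.coe_subset.2 h)).trans hp.2⟩

instance : TopologicalSpace (XPt I) where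
  IsOpen S := ∀ z hz hi j hj, XPt.bd z hz hi j hj ∈ S → ∃ c : Finset I, ∃ Φ : Set (YPt I),
    Φ.Finite ∧ (c : Set I) ⊆ z ∧ YPt.bd z hz hi ∉ Φ ∧ ∀ p ∈ G c j, proj p ∉ Φ → p ∈ S
  isOpen_univ := fun z hz hi j hj _ => ⟨∅, ∅, finite_empty, by simp, by simp, fun _ _ _ => trivial⟩
  isOpen_inter := by
    intro S T hS hT z hz hi j hj h
    obtain ⟨c, Φ, h1, h2, h3, h4⟩ := hS z hz hi j hj h.1
    obtain ⟨c', Φ', k1, k2, k3, k4⟩ := hT z hz hi j hj h.2
    refine ⟨c ∪ c', Φ ∪ Φ', h1.union k1, ?_, ?_, ?_⟩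
    · rw [Finset.coe_union]
      exact union_subset h2 k2
    · rintro (h | h)
      exacts [h3 h, k3 h]
    · intro p hp hpΦ
      exact ⟨h4 p (G_mono Finset.subset_union_left j hp) fun h => hpΦ (Or.inl h),
        k4 p (G_mono Finset.subset_union_right j hp) fun h => hpΦ (Or.inr h)⟩
  isOpen_sUnion := by
    rintro 𝒮 h𝒮 z hz hi j hj ⟨S, hS, h⟩
    obtain ⟨c, Φ, h1, h2, h3, h4⟩ := h𝒮 S hS z hz hi j hj h
    exact ⟨c, Φ, h1, h2, h3, fun p hp hpΦ => ⟨S, hS, h4 p hp hpΦ⟩⟩

theorem isOpen_XPt {S : Set (XPt I)} : IsOpen S ↔ ∀ z hz hi j hj, XPt.bd z hz hi j hj ∈ S →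
    ∃ c : Finset I, ∃ Φ : Set (YPt I), Φ.Finite ∧ (c : Set I) ⊆ z ∧ YPt.bd z hz hi ∉ Φ ∧
      ∀ p ∈ G c j, proj p ∉ Φ → p ∈ S := Iff.rfl

instance : TopologicalSpace (YPt I) := TopologicalSpace.coinduced proj inferInstance

theorem isOpen_YPt {S : Set (YPt I)} : IsOpen S ↔ IsOpen (proj ⁻¹' S : Set (XPt I)) := Iff.rfl

theorem vis_countable (p : XPt I) : p.vis.Countable := by
  cases p with
  | bd z hz hi j hj => exact hz.mono sdiff_subset
  | iso a ha n => exact ha

theorem vis_subset_full (p : XPt I) : p.vis ⊆ p.full := by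
  cases p with
  | bd z hz hi j hj => exact sdiff_subset
  | iso a ha n => exact subset_univ _

/-- The visible neighbourhoods. -/
def VV (e : Finset I) : Set (XPt I) := {p | (e : Set I) ⊆ p.vis}

theorem VV_subset_G (e : Finset I) (j : I) : VV e ⊆ G e j := fun p hp =>
  ⟨subset_trans hp (vis_subset_full p), sdiff_subset.trans hp⟩

theorem isOpen_VV_diff (e : Finset I) {Φ : Set (YPt I)} (hΦ : Φ.Finite) :
    IsOpen {p : XPt I | p ∈ VV e ∧ proj p ∉ Φ} := by
  rw [isOpen_XPt]
  rintro z hz hi j hj ⟨h1, h2⟩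
  refine ⟨e, Φ, hΦ, (show (e : Set I) ⊆ z \ {j} from h1).trans sdiff_subset, h2, ?_⟩
  intro p hp hpΦ
  refine ⟨?_, hpΦ⟩
  intro i hi'
  refine hp.2 ⟨hi', ?_⟩
  exact (h1 hi').2

theorem isOpen_VV (e : Finset I) : IsOpen (VV e : Set (XPt I)) := by
  have := isOpen_VV_diff e (Set.finite_empty (α := YPt I))
  simpa using this

theorem fiber_bd (z : Set I) (hz : z.Countable) (hi : z.Infinite) :
    proj ⁻¹' {YPt.bd z hz hi} = range fun j : z => XPt.bd z hz hi j.1 j.2 := by
  ext p
  simp only [mem_preimage, mem_singleton_iff, mem_range, Subtype.exists]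
  constructor
  · intro h
    cases p with
    | bd z' hz' hi' j hj =>
      simp only [proj, YPt.bd.injEq] at h
      subst h
      exact ⟨j, hj, rfl⟩
    | iso a ha n => simp [proj] at h
  · rintro ⟨j, hj, rfl⟩
    rfl

theorem fiber_iso (a : Set I) (ha : a.Countable) (n : ℕ) :
    proj ⁻¹' {YPt.iso a ha n} = {XPt.iso a ha n} := by
  ext p
  simp only [mem_preimage, mem_singleton_iff]
  cases p with
  | bd z' hz' hi' j hj => simp [proj]
  | iso a' ha' n' => simp [proj]

theorem fiber_countable (y : YPt I) : (proj ⁻¹' {y} : Set (XPt I)).Countable := by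
  cases y with
  | bd z hz hi =>
    rw [fiber_bd]
    have := hz.to_subtype
    exact countable_range _
  | iso a ha n =>
    rw [fiber_iso]
    exact countable_singleton _

theorem proj_surjective : Function.Surjective (proj (I := I)) := by
  intro y
  cases y with
  | bd z hz hi =>
    obtain ⟨j, hj⟩ := hi.nonempty
    exact ⟨XPt.bd z hz hi j hj, rfl⟩
  | iso a ha n => exact ⟨XPt.iso a ha n, rfl⟩

/-- The key neighbourhoods of a fibre. -/
theorem fiber_nhds {S : Set (XPt I)} (hS : IsOpen S) (z : Set I) (hz : z.Countable)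
    (hi : z.Infinite) (h : ∀ j hj, XPt.bd z hz hi j hj ∈ S) :
    ∃ c : Finset I, ∃ Φ : Set (YPt I), Φ.Finite ∧ (c : Set I) ⊆ z ∧ YPt.bd z hz hi ∉ Φ ∧
      ∀ p : XPt I, (c : Set I) ⊆ p.full → ((c : Set I) \ p.vis).Subsingleton → proj p ∉ Φ →
        p ∈ S := by
  rw [isOpen_XPt] at hS
  obtain ⟨j0, hj0⟩ := hi.nonempty
  obtain ⟨c0, Φ0, h1, h2, h3, h4⟩ := hS z hz hi j0 hj0 (h j0 hj0)
  have h5 : ∀ j ∈ c0, ∃ c : Finset I, ∃ Φ : Set (YPt I), Φ.Finite ∧ (c : Set I) ⊆ z ∧
      YPt.bd z hz hi ∉ Φ ∧ ∀ p ∈ G c j, proj p ∉ Φ → p ∈ S := fun j hj =>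
    hS z hz hi j (h2 hj) (h j (h2 hj))
  choose! c Φ k1 k2 k3 k4 using h5
  refine ⟨c0 ∪ c0.biUnion c, Φ0 ∪ ⋃ j ∈ c0, Φ j, h1.union (c0.finite_toSet.biUnion k1), ?_, ?_, ?_⟩
  · rw [Finset.coe_union]
    refine union_subset h2 ?_
    intro x hx
    obtain ⟨j, hj, hx⟩ := Finset.mem_biUnion.1 (Finset.mem_coe.1 hx)
    exact k2 j hj hx
  · rintro (h | h)
    · exact h3 h
    · obtain ⟨j, hj, h⟩ := mem_iUnion₂.1 h
      exact k3 j hj h
  · intro p hp hps hpΦ
    by_cases hcase : (c0 : Set I) \ {j0} ⊆ p.vis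
    · refine h4 p ⟨?_, hcase⟩ fun h => hpΦ (Or.inl h)
      exact (Finset.coe_subset.2 Finset.subset_union_left).trans hp
    · obtain ⟨i, ⟨hi0, _⟩, hiv⟩ := not_subset.1 hcase
      have hsub : c i ⊆ c0 ∪ c0.biUnion c :=
        (Finset.subset_biUnion_of_mem c hi0).trans Finset.subset_union_right
      refine k4 i hi0 p ⟨(Finset.coe_subset.2 hsub).trans hp, ?_⟩ fun h => hpΦ (Or.inr ?_)
      · rintro k ⟨hk, hki⟩
        by_contra hkv
        exact hki (hps ⟨hsub hk, hkv⟩ ⟨Finset.mem_union_left _ hi0, hiv⟩)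
      · exact mem_iUnion₂.2 ⟨i, hi0, h⟩

theorem proj_isClosedMap : IsClosedMap (proj (I := I)) := by
  intro S hS
  rw [← isOpen_compl_iff, isOpen_YPt]
  rw [← isOpen_compl_iff] at hS
  rw [isOpen_XPt]
  intro z hz hi j hj hmem
  have h1 : ∀ j hj, XPt.bd z hz hi j hj ∈ Sᶜ := by
    intro j' hj' hS'
    exact hmem ⟨_, hS', rfl⟩
  obtain ⟨c, Φ, k1, k2, k3, k4⟩ := fiber_nhds hS z hz hi h1
  refine ⟨c, Φ, k1, k2, k3, ?_⟩
  intro p hp hpΦ
  rintro ⟨q, hq, hqp⟩
  have hqΦ : proj q ∉ Φ := by rw [hqp]; exact hpΦ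
  refine k4 q ?_ ?_ hqΦ hq
  · cases p with
    | bd z' hz' hi' j' hj' =>
      cases q with
      | bd z'' hz'' hi'' j'' hj'' =>
        simp only [proj, YPt.bd.injEq] at hqp
        subst hqp
        exact hp.1
      | iso a ha n => simp [proj] at hqp
    | iso a ha n =>
      cases q with
      | bd z'' hz'' hi'' j'' hj'' => simp [proj] at hqp
      | iso a ha n => exact subset_univ _
  · cases p with
    | bd z' hz' hi' j' hj' =>
      cases q with
      | bd z'' hz'' hi'' j'' hj'' =>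
        simp only [proj, YPt.bd.injEq] at hqp
        subst hqp
        have h5 : ∀ x, x ∈ (c : Set I) \ (XPt.bd z'' hz'' hi'' j'' hj'').vis → x = j'' := by
          rintro x ⟨hx, hx'⟩
          by_contra hne
          exact hx' ⟨hp.1 hx, hne⟩
        intro x hx y hy
        rw [h5 x hx, h5 y hy]
      | iso a ha n => simp [proj] at hqp
    | iso a ha n =>
      cases q with
      | bd z'' hz'' hi'' j'' hj'' => simp [proj] at hqp
      | iso a' ha' n' =>
        simp only [proj, YPt.iso.injEq] at hqp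
        obtain ⟨rfl, rfl⟩ := hqp
        have h5 : ∀ x, x ∈ (c : Set I) \ (XPt.iso a' ha' n').vis → x = j := by
          rintro x ⟨hx, hx'⟩
          by_contra hne
          exact hx' (hp.2 ⟨hx, hne⟩)
        intro x hx y hy
        rw [h5 x hx, h5 y hy]

theorem proj_perfect : PerfectMapping (proj (I := I)) where
  continuous := continuous_coinduced_rng
  surjective := proj_surjective
  isClosedMap := proj_isClosedMap
  isCompact_fiber := by
    intro y
    cases y with
    | iso a ha n =>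
      rw [fiber_iso]
      exact isCompact_singleton
    | bd z hz hi =>
      refine isCompact_of_finite_subcover ?_
      intro ι U hU hcov
      have hmem : ∀ j, ∀ hj : j ∈ z, ∃ i, XPt.bd z hz hi j hj ∈ U i := fun j hj =>
        by
        have h0 : XPt.bd z hz hi j hj ∈ (proj ⁻¹' {YPt.bd z hz hi} : Set (XPt I)) := rfl
        exact mem_iUnion.1 (hcov h0)
      obtain ⟨j0, hj0⟩ := hi.nonempty
      obtain ⟨i0, hi0⟩ := hmem j0 hj0
      obtain ⟨c, Φ, k1, k2, k3, k4⟩ := isOpen_XPt.1 (hU i0) z hz hi j0 hj0 hi0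
      have h5 : ∀ j ∈ c, ∃ i, ∀ hj : j ∈ z, XPt.bd z hz hi j hj ∈ U i := fun j hj => by
        obtain ⟨i, h⟩ := hmem j (k2 hj)
        exact ⟨i, fun _ => h⟩
      have : Nonempty ι := ⟨i0⟩
      choose! g hg using h5
      refine ⟨insert i0 (c.image g), ?_⟩
      rw [fiber_bd]
      rintro _ ⟨⟨j, hj⟩, rfl⟩
      by_cases hjc : j ∈ c
      · exact mem_iUnion₂.2 ⟨g j, Finset.mem_insert_of_mem (Finset.mem_image_of_mem g hjc),
          hg j hjc hj⟩
      · refine mem_iUnion₂.2 ⟨i0, Finset.mem_insert_self _ _, k4 _ ⟨k2, ?_⟩ k3⟩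
        rintro x ⟨hx, _⟩
        refine ⟨k2 hx, ?_⟩
        rintro rfl
        exact hjc hx

theorem metalindelof_XPt : Metalindelof (XPt I) := by
  intro 𝒰 h𝒰 hcov
  have hU : ∀ p : XPt I, ∃ U ∈ 𝒰, p ∈ U := fun p => mem_sUnion.1 (hcov ▸ mem_univ p : p ∈ ⋃₀ 𝒰)
  choose U hU hpU using hU
  let E : Set (Finset I) := {e | ∃ W ∈ 𝒰, ∃ Φ : Set (YPt I), Φ.Finite ∧
    ∀ p ∈ VV e, proj p ∉ Φ → p ∈ W}
  have hE : ∀ e ∈ E, ∃ W ∈ 𝒰, ∃ Φ : Set (YPt I), Φ.Finite ∧ ∀ p ∈ VV e, proj p ∉ Φ → p ∈ W :=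
    fun e he => he
  choose! W hW Φ hΦ hWΦ using hE
  refine ⟨(fun e => {p : XPt I | p ∈ VV e ∧ proj p ∉ Φ e}) '' E ∪
    (⋃ e ∈ E, (fun q => VV e ∩ U q) '' (proj ⁻¹' Φ e)) ∪
    range (fun t : {a : Set I // a.Countable} × ℕ => ({XPt.iso t.1.1 t.1.2 t.2} : Set (XPt I))),
    ?_, ?_, ?_, ?_⟩
  · rintro _ ((⟨e, he, rfl⟩ | hV) | ⟨t, rfl⟩)
    · exact isOpen_VV_diff e (hΦ e he)
    · obtain ⟨e, he, q, hq, rfl⟩ := mem_iUnion₂.1 hV
      exact (isOpen_VV e).inter (h𝒰 _ (hU q))
    · rw [isOpen_XPt]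
      intro z hz hi j hj h
      simp at h
  · refine eq_univ_of_forall fun x => ?_
    cases x with
    | iso a ha n =>
      exact ⟨_, Or.inr ⟨(⟨a, ha⟩, n), rfl⟩, rfl⟩
    | bd z hz hi j hj =>
      have hz1 : (z \ {j}).Countable := hz.mono sdiff_subset
      have hi1 : (z \ {j}).Infinite := hi.sdiff (finite_singleton j)
      obtain ⟨j1, hj1⟩ := hi1.nonempty
      obtain ⟨c, Ψ, k1, k2, k3, k4⟩ := isOpen_XPt.1 (h𝒰 _ (hU (XPt.bd (z \ {j}) hz1 hi1 j1 hj1)))
        _ hz1 hi1 j1 hj1 (hpU _)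
      have hcE : c ∈ E := ⟨_, hU _, Ψ, k1, fun p hp hpΨ => k4 p (VV_subset_G c j1 hp) hpΨ⟩
      have hx : XPt.bd z hz hi j hj ∈ VV c := k2
      by_cases hxΦ : proj (XPt.bd z hz hi j hj) ∈ Φ c
      · exact ⟨_, Or.inl (Or.inr (mem_iUnion₂.2 ⟨c, hcE, _, hxΦ, rfl⟩)), hx, hpU _⟩
      · exact ⟨_, Or.inl (Or.inl ⟨c, hcE, rfl⟩), hx, hxΦ⟩
  · intro x
    have hfin : {e : Finset I | (e : Set I) ⊆ x.vis}.Countable := by
      have h1 : {s : Set I | s.Finite ∧ s ⊆ x.vis}.Countable :=
        Set.countable_ofPred_finite_subset (vis_countable x)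
      refine (h1.preimage (Finset.coe_injective (α := I))).mono ?_
      intro s hs
      exact ⟨s.finite_toSet, hs⟩
    have hEc : ({e : Finset I | (e : Set I) ⊆ x.vis} ∩ E).Countable := hfin.mono inter_subset_left
    have hcount : ((fun e => {p : XPt I | p ∈ VV e ∧ proj p ∉ Φ e}) ''
        ({e : Finset I | (e : Set I) ⊆ x.vis} ∩ E) ∪
        (⋃ e ∈ {e : Finset I | (e : Set I) ⊆ x.vis} ∩ E, (fun q => VV e ∩ U q) '' (proj ⁻¹' Φ e)) ∪
        {{x}}).Countable := by
      refine ((hEc.image _).union (hEc.biUnion fun e he => ?_)).union (countable_singleton _)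
      refine Countable.image ?_ _
      have h2 : (proj ⁻¹' Φ e : Set (XPt I)) = ⋃ y ∈ Φ e, proj ⁻¹' {y} := by
        ext p; simp
      rw [h2]
      exact (hΦ e he.2).countable.biUnion fun y _ => fiber_countable y
    refine hcount.mono ?_
    rintro V ⟨(⟨e, he, rfl⟩ | hV) | ⟨t, rfl⟩, hxV⟩
    · exact Or.inl (Or.inl ⟨e, ⟨hxV.1, he⟩, rfl⟩)
    · obtain ⟨e, he, q, hq, rfl⟩ := mem_iUnion₂.1 hV
      exact Or.inl (Or.inr (mem_iUnion₂.2 ⟨e, ⟨hxV.1, he⟩, q, hq, rfl⟩))
    · refine Or.inr ?_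
      rw [mem_singleton_iff] at hxV
      rw [mem_singleton_iff, hxV]
  · rintro _ ((⟨e, he, rfl⟩ | hV) | ⟨t, rfl⟩)
    · exact ⟨W e, hW e he, fun p hp => hWΦ e he p hp.1 hp.2⟩
    · obtain ⟨e, he, q, hq, rfl⟩ := mem_iUnion₂.1 hV
      exact ⟨U q, hU q, inter_subset_right⟩
    · refine ⟨U (XPt.iso t.1.1 t.1.2 t.2), hU _, ?_⟩
      rintro _ rfl
      exact hpU _

instance : T1Space (XPt I) := by
  refine ⟨fun q => ?_⟩
  rw [← isOpen_compl_iff, isOpen_XPt]
  intro z hz hi j hj hne
  by_cases hq : proj q = YPt.bd z hz hi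
  · have hq' : q ∈ proj ⁻¹' {YPt.bd z hz hi} := hq
    rw [fiber_bd] at hq'
    obtain ⟨⟨j', hj'⟩, rfl⟩ := hq'
    have hjj : j' ≠ j := by
      rintro rfl
      exact hne rfl
    refine ⟨{j'}, ∅, finite_empty, by simpa using hj', by simp, ?_⟩
    rintro p hp _ rfl
    have h1 : j' ∈ (XPt.bd z hz hi j' hj').vis := hp.2 ⟨by simp, hjj⟩
    exact h1.2 rfl
  · refine ⟨∅, {proj q}, finite_singleton _, by simp, ?_, ?_⟩
    · intro h
      exact hq h.symm
    · rintro p _ hpq rfl
      exact hpq rfl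

instance : T1Space (YPt I) := by
  refine ⟨fun y => ?_⟩
  rw [← isOpen_compl_iff, isOpen_YPt, isOpen_XPt]
  intro z hz hi j hj hne
  refine ⟨∅, {y}, finite_singleton _, by simp, ?_, ?_⟩
  · exact hne
  · intro p _ hp
    exact hp

/-- The cover of the range. -/
def UU (i : I) : Set (YPt I) := {y | i ∈ y.full}

theorem isOpen_UU (i : I) : IsOpen (UU i) := by
  rw [isOpen_YPt, isOpen_XPt]
  intro z hz hi j hj h
  refine ⟨{i}, ∅, finite_empty, ?_, by simp, ?_⟩
  · rw [Finset.coe_singleton, singleton_subset_iff]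
    exact h
  · intro p hp _
    have h1 : i ∈ p.full := hp.1 (by simp)
    cases p with
    | bd z' hz' hi' j' hj' => exact h1
    | iso a ha n => exact (mem_univ i : i ∈ (Set.univ : Set I))

theorem cover_UU [Nonempty I] : ⋃ i, UU i = (Set.univ : Set (YPt I)) := by
  refine eq_univ_of_forall fun y => ?_
  cases y with
  | bd z hz hi =>
    obtain ⟨j, hj⟩ := hi.nonempty
    exact mem_iUnion.2 ⟨j, hj⟩
  | iso a ha n =>
    refine mem_iUnion.2 ⟨Classical.arbitrary I, ?_⟩
    exact (mem_univ (Classical.arbitrary I) : _ ∈ (Set.univ : Set I))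

theorem negative [Nonempty I] (hI : FreeSubsets I) :
    ¬ HasPointCountableOpenRefinement (range (UU (I := I))) := by
  rintro ⟨𝒱, h1, h2, h3, h4⟩
  have h5 : ∀ V ∈ 𝒱, ∃ i, V ⊆ UU (I := I) i := by
    intro V hV
    obtain ⟨_, ⟨i, rfl⟩, hi⟩ := h4 V hV
    exact ⟨i, hi⟩
  choose! u hu using h5
  let B : Type u := {z : Set I // z.Countable ∧ z.Infinite}
  let bp : B → YPt I := fun b => YPt.bd b.1 b.2.1 b.2.2
  have h6 : ∀ b : B, ∃ V ∈ 𝒱, bp b ∈ V := fun b =>
    mem_sUnion.1 (h2 ▸ mem_univ (bp b) : bp b ∈ ⋃₀ 𝒱)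
  choose N hN hbN using h6
  have h7 : ∀ b : B, ∃ c : Finset I, ∃ Φ : Set (YPt I), Φ.Finite ∧ (c : Set I) ⊆ b.1 ∧
      bp b ∉ Φ ∧ ∀ p : XPt I, (c : Set I) ⊆ p.full → ((c : Set I) \ p.vis).Subsingleton →
        proj p ∉ Φ → proj p ∈ N b := fun b =>
    fiber_nhds (isOpen_YPt.1 (h1 _ (hN b))) b.1 b.2.1 b.2.2 fun j hj => hbN b
  choose c Φ hΦ hcb _ hmem using h7
  -- the label lies in the finite set
  have h8 : ∀ b : B, u (N b) ∈ c b := by
    intro b
    by_contra hub
    set w : I := u (N b) with hw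
    have hinf : (b.1 \ (insert w (c b : Set I))).Infinite :=
      b.2.2.sdiff ((c b).finite_toSet.insert w)
    let g : I → B := fun k => ⟨b.1 \ {w, k}, b.2.1.mono sdiff_subset,
      b.2.2.sdiff (Set.toFinite {w, k})⟩
    have hg : InjOn (fun k => bp (g k)) (b.1 \ (insert w (c b : Set I))) := by
      intro k hk k' hk' hkk
      by_contra hne
      have h9 : b.1 \ {w, k} = b.1 \ {w, k'} := by
        have := hkk
        simp only [bp, g, YPt.bd.injEq] at this
        exact this
      have h10 : k' ∈ b.1 \ {w, k} := by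
        refine ⟨hk'.1, ?_⟩
        rintro (h | h)
        · exact hk'.2 (Or.inl h)
        · exact hne h.symm
      rw [h9] at h10
      exact h10.2 (Or.inr rfl)
    obtain ⟨_, ⟨k, hk, rfl⟩, hkΦ⟩ := (hinf.image hg).exists_notMem_finite (hΦ b)
    obtain ⟨j', hj'⟩ := (g k).2.2.nonempty
    have h11 := hmem b (XPt.bd (g k).1 (g k).2.1 (g k).2.2 j' hj') ?_ ?_ hkΦ
    · have h12 := hu (N b) (hN b) h11
      exact (show w ∈ b.1 \ {w, k} from h12).2 (Or.inl rfl)
    · intro x hx
      refine ⟨hcb b hx, ?_⟩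
      rintro (h | h)
      · exact hub (h ▸ hx)
      · exact hk.2 (Or.inr (h ▸ hx))
    · have h13 : ∀ x, x ∈ (c b : Set I) \ (XPt.bd (g k).1 (g k).2.1 (g k).2.2 j' hj').vis →
          x = j' := by
        rintro x ⟨hx, hx'⟩
        by_contra hne
        refine hx' ⟨⟨hcb b hx, ?_⟩, hne⟩
        rintro (h | h)
        · exact hub (h ▸ hx)
        · exact hk.2 (Or.inr (h ▸ hx))
      intro x hx y hy
      rw [h13 x hx, h13 y hy]
  let C : Finset I → Set I := fun s => {i | ∃ b : B, u (N b) = i ∧ (c b).erase i = s}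
  have hC : ∀ s, (C s).Countable := by
    intro s
    have h9 : C s ⊆ ⋃ n : ℕ, u '' {V ∈ 𝒱 | YPt.iso (s : Set I) s.countable_toSet n ∈ V} := by
      rintro i ⟨b, hbi, hbs⟩
      have h10 : (range fun n : ℕ => YPt.iso (s : Set I) s.countable_toSet n).Infinite := by
        refine infinite_range_of_injective ?_
        intro n m hnm
        simpa using hnm
      obtain ⟨_, ⟨n, rfl⟩, hn⟩ := h10.exists_notMem_finite (hΦ b)
      refine mem_iUnion.2 ⟨n, N b, ⟨hN b, ?_⟩, hbi⟩
      refine hmem b (XPt.iso (s : Set I) s.countable_toSet n) (subset_univ _) ?_ hn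
      have h13 : ∀ x, x ∈ (c b : Set I) \ (s : Set I) → x = i := by
        rintro x ⟨hx, hx'⟩
        by_contra hne
        apply hx'
        rw [← hbs]
        exact Finset.mem_coe.2 (Finset.mem_erase.2 ⟨hne, hx⟩)
      intro x hx y hy
      rw [h13 x hx, h13 y hy]
    exact (countable_iUnion fun n => (h3 _).image u).mono h9
  obtain ⟨A, hA, hfree⟩ := hI C hC
  let em := hA.natEmbedding
  let b : B := ⟨range fun n => (em n : I), countable_range _, infinite_range_of_injective fun n m h =>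
    em.injective (Subtype.ext h)⟩
  have hbA : b.1 ⊆ A := by
    rintro _ ⟨n, rfl⟩
    exact (em n).2
  refine hfree ((c b).erase (u (N b))) ?_ (u (N b)) (hbA (hcb b (h8 b))) (Finset.notMem_erase _ _)
    ⟨b, rfl, rfl⟩
  intro x hx
  exact hbA (hcb b (Finset.mem_of_mem_erase (Finset.mem_coe.1 hx)))

end Negative

/-! ### Small cardinals have no infinite free subsets -/

section Small

/-- There is a countable-valued set mapping on `κ` without free subsets of size `n + 1`. -/
def NoFree (n : ℕ) (κ : Type u) : Prop :=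
  ∃ C : Finset κ → Set κ, (∀ s, (C s).Countable) ∧ ∀ A : Finset κ, A.card = n + 1 →
    ∃ s : Finset κ, s ⊆ A ∧ ∃ a ∈ A, a ∉ s ∧ a ∈ C s

theorem noFree_of_equiv {n : ℕ} {κ : Type u} {κ' : Type u} (e : κ → κ')
    (he : Function.Injective e) (h : NoFree n κ') : NoFree n κ := by
  classical
  obtain ⟨C, hC, hA⟩ := h
  refine ⟨fun s => e ⁻¹' C (s.image e), fun s => (hC _).preimage he, ?_⟩
  intro A hcard
  obtain ⟨s, hs, a, ha, has, haC⟩ := hA (A.image e) (by rw [Finset.card_image_of_injective _ he, hcard])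
  obtain ⟨a', ha', rfl⟩ := Finset.mem_image.1 ha
  refine ⟨A.filter fun x => e x ∈ s, Finset.filter_subset _ _, a', ha', ?_, ?_⟩
  · simp [has]
  · have h1 : (A.filter fun x => e x ∈ s).image e = s := by
      ext y
      simp only [Finset.mem_image, Finset.mem_filter]
      constructor
      · rintro ⟨x, ⟨_, hx⟩, rfl⟩
        exact hx
      · intro hy
        obtain ⟨x, hx, rfl⟩ := Finset.mem_image.1 (hs hy)
        exact ⟨x, ⟨hx, hy⟩, rfl⟩
    show e a' ∈ C _
    rw [h1]
    exact haC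

theorem noFree_aleph (n : ℕ) : ∀ κ : Type u, #κ ≤ ℵ_ n → NoFree n κ := by
  classical
  induction n with
  | zero =>
    intro κ hκ
    have hcount : Countable κ := by
      rw [← mk_le_aleph0_iff]
      simpa using hκ
    refine ⟨fun _ => Set.univ, fun _ => Set.to_countable _, ?_⟩
    intro A hA
    obtain ⟨a, ha⟩ := Finset.card_pos.1 (by rw [hA]; exact Nat.succ_pos _ : 0 < A.card)
    exact ⟨∅, by simp, a, ha, by simp, mem_univ _⟩
  | succ n ih =>
    intro κ hκ
    obtain ⟨r, hr, hrk⟩ := exists_ord_eq κ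
    have hinit : ∀ x : κ, NoFree n {y // r y x} := by
      intro x
      apply ih
      have h1 : #{y // r y x} < #κ := by
        have h2 := Ordinal.typein_lt_type r x
        rw [← hrk, lt_ord] at h2
        exact h2
      have h3 : #{y // r y x} < ℵ_ ((n + 1 : ℕ) : Ordinal) := lt_of_lt_of_le h1 hκ
      rw [Nat.cast_add, Nat.cast_one, ← succ_aleph, Order.lt_succ_iff] at h3
      exact h3
    choose C hC hA using hinit
    refine ⟨fun s => ⋃ x ∈ s, Subtype.val '' C x (s.subtype fun y => r y x), ?_, ?_⟩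
    · intro s
      exact s.countable_toSet.biUnion fun x _ => (hC x _).image _
    · intro A hcard
      have hne : A.Nonempty := Finset.card_pos.1 (by rw [hcard]; exact Nat.succ_pos _)
      obtain ⟨m, hm, hmax⟩ : ∃ m ∈ A, ∀ a ∈ A, a ≠ m → r a m := by
        let _ := linearOrderOfSTO r
        obtain ⟨m, hm, hmax⟩ := A.exists_max_image id hne
        exact ⟨m, hm, fun a ha hne => lt_of_le_of_ne (hmax a ha) hne⟩
      let A' : Finset {y // r y m} := A.subtype fun y => r y m
      have hA'card : A'.card = n + 1 := by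
        have h1 : A'.map (Function.Embedding.subtype _) = A.erase m := by
          ext y
          simp only [A', Finset.subtype_map, Finset.mem_filter, Finset.mem_erase]
          constructor
          · rintro ⟨hy, hry⟩
            refine ⟨?_, hy⟩
            rintro rfl
            exact irrefl_of r _ hry
          · rintro ⟨hne, hy⟩
            exact ⟨hy, hmax y hy hne⟩
        rw [← Finset.card_map (Function.Embedding.subtype _), h1, Finset.card_erase_of_mem hm,
          hcard]
        rfl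
      obtain ⟨s, hs, a, ha, has, haC⟩ := hA m A' hA'card
      have hmem : ∀ x : {y // r y m}, x ∈ A' ↔ x.1 ∈ A := by
        intro x
        simp [A']
      refine ⟨insert m (s.map (Function.Embedding.subtype _)), ?_, a.1, (hmem a).1 ha, ?_, ?_⟩
      · intro x hx
        rcases Finset.mem_insert.1 hx with rfl | hx
        · exact hm
        · obtain ⟨y, hy, rfl⟩ := Finset.mem_map.1 hx
          exact (hmem y).1 (hs hy)
      · intro h
        rcases Finset.mem_insert.1 h with h | h
        · have h2 := a.2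
          rw [h] at h2
          exact irrefl_of r _ h2
        · obtain ⟨y, hy, hya⟩ := Finset.mem_map.1 h
          have : y = a := Subtype.ext hya
          exact has (this ▸ hy)
      · refine mem_iUnion₂.2 ⟨m, Finset.mem_insert_self _ _, a, ?_, rfl⟩
        have h3 : (insert m (s.map (Function.Embedding.subtype fun y => r y m))).subtype
            (fun y => r y m) = s := by
          ext y
          simp only [Finset.mem_subtype, Finset.mem_insert, Finset.mem_map,
            Function.Embedding.subtype_apply]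
          constructor
          · rintro (h | ⟨z, hz, hzy⟩)
            · have h2 := y.2
              rw [h] at h2
              exact absurd h2 (irrefl_of r _)
            · have : z = y := Subtype.ext hzy
              exact this ▸ hz
          · intro hy
            exact Or.inr ⟨y, hy, rfl⟩
        rw [h3]
        exact haC

theorem not_freeSubsets_of_lt {κ : Type u} (hκ : #κ < ℵ_ Ordinal.omega0) : ¬ FreeSubsets κ := by
  classical
  intro hI
  obtain ⟨n, hn⟩ : ∃ n : ℕ, #κ ≤ ℵ_ n := by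
    rw [aleph_limit Ordinal.isSuccLimit_omega0] at hκ
    obtain ⟨⟨o, ho⟩, h⟩ := exists_lt_of_lt_ciSup' hκ
    obtain ⟨n, rfl⟩ := Ordinal.lt_omega0.1 ho
    exact ⟨n, h.le⟩
  obtain ⟨C, hC, hA⟩ := noFree_aleph n κ hn
  obtain ⟨A, hAinf, hfree⟩ := hI C hC
  obtain ⟨t, htA, htc⟩ := hAinf.exists_subset_card_eq (n + 1)
  obtain ⟨s, hs, a, ha, has, haC⟩ := hA t htc
  exact hfree s ((Finset.coe_subset.2 hs).trans htA) a (htA ha) has haC

end Small

/-! ### Countably complete ultrafilters give infinite free subsets -/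

section Measurable

variable {κ : Type u}

/-- `Gen 𝒰 n P`: the property `P` holds for `𝒰`-generic lists of length `n`. -/
def Gen (𝒰 : Ultrafilter κ) : ℕ → (List κ → Prop) → Prop
  | 0, P => P []
  | n + 1, P => ∀ᶠ a in 𝒰, Gen 𝒰 n fun l => P (a :: l)

theorem gen_mono (𝒰 : Ultrafilter κ) : ∀ (n : ℕ) {P Q : List κ → Prop}, (∀ l, P l → Q l) →
    Gen 𝒰 n P → Gen 𝒰 n Q
  | 0, _, _, h, hP => h _ hP
  | n + 1, _, _, h, hP => by
    unfold Gen at hP ⊢
    exact hP.mono fun a ha => gen_mono 𝒰 n (fun l => h (a :: l)) ha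

theorem gen_and (𝒰 : Ultrafilter κ) : ∀ (n : ℕ) {P Q : List κ → Prop}, Gen 𝒰 n P → Gen 𝒰 n Q →
    Gen 𝒰 n fun l => P l ∧ Q l
  | 0, _, _, hP, hQ => ⟨hP, hQ⟩
  | n + 1, _, _, hP, hQ => by
    unfold Gen at hP hQ ⊢
    exact (hP.and hQ).mono fun a ha => gen_and 𝒰 n ha.1 ha.2

theorem gen_exists (𝒰 : Ultrafilter κ) : ∀ (n : ℕ) {P : List κ → Prop}, Gen 𝒰 n P → ∃ l, P l
  | 0, _, hP => ⟨[], hP⟩
  | n + 1, _, hP => by
    unfold Gen at hP
    obtain ⟨a, ha⟩ := hP.exists
    obtain ⟨l, hl⟩ := gen_exists 𝒰 n ha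
    exact ⟨a :: l, hl⟩

theorem gen_not (𝒰 : Ultrafilter κ) : ∀ (n : ℕ) {P : List κ → Prop}, ¬ Gen 𝒰 n P →
    Gen 𝒰 n fun l => ¬ P l
  | 0, _, hP => hP
  | n + 1, _, hP => by
    unfold Gen at hP ⊢
    rw [← Ultrafilter.eventually_not] at hP
    exact hP.mono fun a ha => gen_not 𝒰 n ha

theorem gen_forall (𝒰 : Ultrafilter κ) [CountableInterFilter (𝒰 : Filter κ)] :
    ∀ (n : ℕ) {P : ℕ → List κ → Prop}, (∀ k, Gen 𝒰 n (P k)) → Gen 𝒰 n fun l => ∀ k, P k l
  | 0, _, hP => hP
  | n + 1, _, hP => by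
    unfold Gen at hP ⊢
    exact (eventually_countable_forall.2 hP).mono fun a ha => gen_forall 𝒰 n ha

theorem countable_of_gen (𝒰 : Ultrafilter κ) [CountableInterFilter (𝒰 : Filter κ)] (n : ℕ)
    (D : List κ → Set κ) (hD : ∀ t, (D t).Countable) :
    {a | Gen 𝒰 n fun t => a ∈ D t}.Countable := by
  classical
  have h1 : ∀ t, ∃ h : ℕ → Option κ, ∀ a ∈ D t, ∃ k, h k = some a := by
    intro t
    obtain ⟨g, hg⟩ := (((hD t).image some).insert none).exists_eq_range (by simp)
    refine ⟨g, fun a ha => ?_⟩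
    have : some a ∈ insert none (some '' D t) := Or.inr ⟨a, ha, rfl⟩
    rw [hg] at this
    exact this
  choose h hh using h1
  have h2 : ∀ a ∈ {a | Gen 𝒰 n fun t => a ∈ D t}, ∃ k : ℕ, Gen 𝒰 n fun t => h t k = some a := by
    intro a ha
    by_contra hcon
    push Not at hcon
    have h4 := gen_and 𝒰 n (gen_forall 𝒰 n fun k => gen_not 𝒰 n (hcon k)) ha
    obtain ⟨t, ht1, ht2⟩ := gen_exists 𝒰 n h4
    obtain ⟨k, hk⟩ := hh t a ht2
    exact ht1 k hk
  choose! k hk using h2
  refine Set.countable_of_injective_of_countable_image (f := k) ?_ (Set.to_countable _)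
  intro a ha b hb hab
  have h5 := gen_and 𝒰 n (hk a ha) (hab ▸ hk b hb)
  obtain ⟨t, ht1, ht2⟩ := gen_exists 𝒰 n h5
  rw [ht1] at ht2
  exact Option.some_injective _ ht2

theorem gen_free (𝒰 : Ultrafilter κ) [CountableInterFilter (𝒰 : Filter κ)]
    (h𝒰 : ∀ a : κ, {a} ∉ 𝒰) (C : Finset κ → Set κ) (hC : ∀ s, (C s).Countable) (n : ℕ) :
    ∀ p : Set κ, p.Countable → Gen 𝒰 n fun l => ∀ l₁ a l₂, l = l₁ ++ a :: l₂ →
      a ∉ clo C (p ∪ {b | b ∈ l₁ ++ l₂}) := by
  induction n with
  | zero =>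
    intro p _ l₁ a l₂ h
    simp at h
  | succ n ih =>
    intro p hp
    unfold Gen
    have hlist : ∀ l : List κ, {b | b ∈ l}.Countable := fun l => (List.finite_toSet l).countable
    have h1 := countable_of_gen 𝒰 n (fun l => clo C (p ∪ {b | b ∈ l}))
      fun l => clo_countable C hC (hp.union (hlist l))
    have h2 : ∀ᶠ a in 𝒰, ∀ b ∈ {a | Gen 𝒰 n fun t => a ∈ clo C (p ∪ {b | b ∈ t})}, a ≠ b := by
      rw [eventually_countable_ball h1]
      intro b _
      have := h𝒰 b
      rw [← Ultrafilter.compl_mem_iff_notMem] at this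
      exact this
    refine h2.mono fun a ha => ?_
    have h3 : Gen 𝒰 n fun l => ¬ a ∈ clo C (p ∪ {b | b ∈ l}) := by
      refine gen_not 𝒰 n fun h => ?_
      exact ha a h rfl
    refine gen_mono 𝒰 n ?_ (gen_and 𝒰 n h3 (ih (insert a p) (hp.insert a)))
    rintro l ⟨h4, h5⟩ l₁ b l₂ h
    rcases List.cons_eq_append_iff.1 h with ⟨rfl, h⟩ | ⟨l₁', rfl, h⟩
    · obtain ⟨rfl, rfl⟩ := List.cons_eq_cons.1 h.symm
      simpa using h4
    · intro hb
      refine h5 l₁' b l₂ (List.cons_eq_cons.1 h).2 (clo_mono C ?_ hb)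
      rintro x (hx | hx)
      · exact Or.inl (Or.inr hx)
      · have hx' : x ∈ a :: (l₁' ++ l₂) := hx
        rcases List.mem_cons.1 hx' with rfl | hx'
        · exact Or.inl (Or.inl rfl)
        · exact Or.inr hx'

theorem freeSubsets_of_ultrafilter (𝒰 : Ultrafilter κ) [CountableInterFilter (𝒰 : Filter κ)]
    (h𝒰 : ∀ a : κ, {a} ∉ 𝒰) : FreeSubsets κ := by
  classical
  intro C hC
  let Good : List κ → Prop := fun l => ∀ l₁ a l₂, l = l₁ ++ a :: l₂ →
    a ∉ clo C {b | b ∈ l₁ ++ l₂}
  let Q : List κ → Prop := fun l => ∀ n, Gen 𝒰 n fun l' => Good (l ++ l')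
  have hQ0 : Q [] := by
    intro n
    have := gen_free 𝒰 h𝒰 C hC n ∅ countable_empty
    refine gen_mono 𝒰 n ?_ this
    intro l hl l₁ a l₂ h
    have h1 := hl l₁ a l₂ h
    rwa [empty_union] at h1
  have hQ : ∀ l, Q l → ∃ a, Q (l ++ [a]) := by
    intro l hl
    have h1 : ∀ᶠ a in 𝒰, ∀ n, Gen 𝒰 n fun l' => Good (l ++ [a] ++ l') := by
      refine eventually_countable_forall.2 fun n => ?_
      have h2 : ∀ᶠ a in 𝒰, Gen 𝒰 n fun l' => Good (l ++ (a :: l')) := hl (n + 1)
      refine h2.mono fun a ha => ?_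
      simpa using ha
    obtain ⟨a, ha⟩ := h1.exists
    exact ⟨a, ha⟩
  have : Nonempty κ := (hQ [] hQ0).nonempty
  choose! g hg using hQ
  let st : ℕ → List κ := fun n => Nat.rec [] (fun _ l => l ++ [g l]) n
  have hst : ∀ n, Q (st n) := by
    intro n
    induction n with
    | zero => exact hQ0
    | succ n ih => exact hg _ ih
  have hst' : ∀ n, st n = (List.range n).map fun k => g (st k) := by
    intro n
    induction n with
    | zero => rfl
    | succ n ih =>
      rw [List.range_succ, List.map_append, ← ih]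
      rfl
  have hgood : ∀ n, Good (st n) := by
    intro n
    have := hst n 0
    simpa [Gen] using this
  have hmem : ∀ k n, k < n → g (st k) ∈ st n := by
    intro k n hkn
    rw [hst' n]
    exact List.mem_map.2 ⟨k, List.mem_range.2 hkn, rfl⟩
  have hinj : Function.Injective fun k => g (st k) := by
    have hlt : ∀ i j, i < j → g (st i) ≠ g (st j) := by
      intro i j hij heq
      have h1 : Good (st (j + 1)) := hgood (j + 1)
      refine h1 (st j) (g (st j)) [] rfl (subset_clo C _ ?_)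
      simp only [List.append_nil, mem_ofPred_eq]
      rw [← heq]
      exact hmem i j hij
    intro i j hij
    rcases lt_trichotomy i j with h | h | h
    · exact absurd hij (hlt i j h)
    · exact h
    · exact absurd hij.symm (hlt j i h)
  refine ⟨range fun k => g (st k), infinite_range_of_injective hinj, ?_⟩
  rintro s hs _ ⟨i, rfl⟩ his hiC
  have h1 : ∀ b ∈ s, ∃ j, g (st j) = b := fun b hb => hs hb
  choose! m hm using h1
  let N := max (i + 1) (s.sup m + 1)
  obtain ⟨l₁, l₂, hl⟩ := List.append_of_mem (hmem i N (lt_of_lt_of_le (Nat.lt_succ_self i)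
    (le_max_left _ _)))
  refine hgood N l₁ _ l₂ hl (clo_closed C ?_ hiC)
  intro b hb
  apply subset_clo
  have hb1 : b ∈ st N := by
    rw [← hm b hb]
    refine hmem _ N (lt_of_le_of_lt (Finset.le_sup (f := m) hb) ?_)
    exact lt_of_lt_of_le (Nat.lt_succ_self _) (le_max_right _ _)
  rw [hl] at hb1
  have hne : b ≠ g (st i) := by
    rintro rfl
    exact his hb
  simp only [List.mem_append, List.mem_cons] at hb1
  rcases hb1 with h | h | h
  · exact List.mem_append.2 (Or.inl h)
  · exact absurd h hne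
  · exact List.mem_append.2 (Or.inr h)

end Measurable

/-! ### Erdos cardinals give infinite free subsets -/

/-- The partition property `κ → (ω)^{<ω}_ω`: for every colouring of the finite subsets of `κ` with
countably many colours there is an infinite `H ⊆ κ` such that for each `n` all `n`-element subsets
of `H` have the same colour. -/
def ErdosOmega (κ : Type u) : Prop :=
  ∀ c : Finset κ → ℕ, ∃ H : Set κ, H.Infinite ∧ ∀ s t : Finset κ, (s : Set κ) ⊆ H →
    (t : Set κ) ⊆ H → s.card = t.card → c s = c t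

section Erdos

theorem freeSubsets_of_erdosOmega {κ : Type u} (hκ : ErdosOmega κ) : FreeSubsets κ := by
  classical
  intro C hC
  let _ : LinearOrder κ := linearOrderOfSTO (WellOrderingRel (α := κ))
  have h1 : ∀ s, ∃ h : ℕ → Option κ, ∀ a ∈ C s, ∃ k, h k = some a := by
    intro s
    obtain ⟨g, hg⟩ := (((hC s).image some).insert none).exists_eq_range (by simp)
    refine ⟨g, fun a ha => ?_⟩
    have : some a ∈ insert none (some '' C s) := Or.inr ⟨a, ha, rfl⟩
    rw [hg] at this
    exact this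
  choose h hh using h1
  let idx : Finset κ → κ → ℕ := fun s a => if hk : ∃ k, h s k = some a then Nat.find hk + 1 else 0
  have hidx : ∀ s a a', a ∈ C s → idx s a = idx s a' → a = a' := by
    intro s a a' ha heq
    have hk := hh s a ha
    simp only [idx] at heq
    rw [dif_pos hk] at heq
    by_cases hk' : ∃ k, h s k = some a'
    · rw [dif_pos hk'] at heq
      have e1 := Nat.find_spec hk
      have e2 := Nat.find_spec hk'
      rw [← Nat.succ.inj heq, e1] at e2
      exact Option.some_injective _ e2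
    · rw [dif_neg hk'] at heq
      omega
  let rk : Finset κ → κ → ℕ := fun s a => (s.filter fun b => b < a).card
  have rk_lt : ∀ s, ∀ a ∈ s, ∀ a' ∈ s, a < a' → rk s a < rk s a' := by
    intro s a ha a' ha' hlt
    refine Finset.card_lt_card ?_
    rw [Finset.ssubset_iff_of_subset]
    · exact ⟨a, by simp [ha, hlt], by simp⟩
    · intro b hb
      rw [Finset.mem_filter] at hb ⊢
      exact ⟨hb.1, hb.2.trans hlt⟩
  have rk_inj : ∀ s, ∀ a ∈ s, ∀ a' ∈ s, rk s a = rk s a' → a = a' := by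
    intro s a ha a' ha' heq
    rcases lt_trichotomy a a' with hlt | heq' | hlt
    · exact absurd heq (rk_lt s a ha a' ha' hlt).ne
    · exact heq'
    · exact absurd heq.symm (rk_lt s a' ha' a ha hlt).ne
  let D : Finset κ → ℕ → ℕ := fun s n =>
    if hn : ∃ a ∈ s, rk s a = n then idx (s.erase hn.choose) hn.choose else 0
  have hD : ∀ s, ∀ a ∈ s, D s (rk s a) = idx (s.erase a) a := by
    intro s a ha
    have hn : ∃ b ∈ s, rk s b = rk s a := ⟨a, ha, rfl⟩
    have hba : hn.choose = a := rk_inj s _ hn.choose_spec.1 a ha hn.choose_spec.2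
    simp only [D]
    rw [dif_pos hn, hba]
  obtain ⟨H, hH, hhom⟩ := hκ fun s => Encodable.encode ((List.range s.card).map (D s))
  -- a monotone sequence in `H`
  let em := hH.natEmbedding
  let f : ℕ → κ := fun n => (em n : κ)
  have hfinj : Function.Injective f := fun n m hnm => em.injective (Subtype.ext hnm)
  obtain ⟨g, hg⟩ := exists_increasing_or_nonincreasing_subseq (fun x y : κ => x < y) f
  let e : ℕ → κ := fun n => f (g n)
  have heinj : Function.Injective e := hfinj.comp g.injective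
  have heH : ∀ n, e n ∈ H := fun n => (em (g n)).2
  have hcmp : ∀ i j, j ≠ i → (e (2 * j) < e (2 * i) ↔ e (2 * j) < e (2 * i + 1)) := by
    intro i j hij
    rcases hg with hg | hg
    · have hmono : ∀ m n, e m < e n ↔ m < n := by
        intro m n
        constructor
        · intro hlt
          by_contra hle
          rcases (not_lt.1 hle).lt_or_eq with h' | h'
          · exact lt_asymm hlt (hg n m h')
          · rw [h'] at hlt
            exact lt_irrefl _ hlt
        · exact hg m n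
      rw [hmono, hmono]
      omega
    · have hmono : ∀ m n, e m < e n ↔ n < m := by
        intro m n
        constructor
        · intro hlt
          by_contra hle
          rcases (not_lt.1 hle).lt_or_eq with h' | h'
          · exact hg m n h' hlt
          · rw [h'] at hlt
            exact lt_irrefl _ hlt
        · intro hlt
          rcases lt_trichotomy (e m) (e n) with h' | h' | h'
          · exact h'
          · exact absurd (heinj h') hlt.ne'
          · exact absurd h' (hg n m hlt)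
      rw [hmono, hmono]
      omega
  refine ⟨range fun n => e (2 * n), infinite_range_of_injective fun n m hnm => ?_, ?_⟩
  · have := heinj hnm
    omega
  rintro s hs _ ⟨i, rfl⟩ his hiC
  have h0 : e (2 * i) ≠ e (2 * i + 1) := fun heq => by
    have := heinj heq
    omega
  have his' : e (2 * i + 1) ∉ s := by
    intro hmem
    obtain ⟨j, hj⟩ := hs hmem
    have := heinj hj
    omega
  apply h0
  refine hidx s _ _ hiC ?_
  have hcard : (insert (e (2 * i)) s).card = (insert (e (2 * i + 1)) s).card := by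
    rw [Finset.card_insert_of_notMem his, Finset.card_insert_of_notMem his']
  have hsH : (s : Set κ) ⊆ H := by
    intro b hb
    obtain ⟨j, rfl⟩ := hs hb
    exact heH _
  have hcol := hhom (insert (e (2 * i)) s) (insert (e (2 * i + 1)) s)
    (by rw [Finset.coe_insert]; exact insert_subset (heH _) hsH)
    (by rw [Finset.coe_insert]; exact insert_subset (heH _) hsH) hcard
  have hlist := Encodable.encode_injective hcol
  have hrk : rk (insert (e (2 * i)) s) (e (2 * i)) =
      rk (insert (e (2 * i + 1)) s) (e (2 * i + 1)) := by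
    have e1 : (insert (e (2 * i)) s).filter (fun b => b < e (2 * i)) =
        (insert (e (2 * i + 1)) s).filter fun b => b < e (2 * i + 1) := by
      ext b
      simp only [Finset.mem_filter, Finset.mem_insert]
      constructor
      · rintro ⟨rfl | hb, hlt⟩
        · exact absurd hlt (lt_irrefl _)
        · obtain ⟨j, rfl⟩ := hs hb
          refine ⟨Or.inr hb, (hcmp i j ?_).1 hlt⟩
          rintro rfl
          exact his hb
      · rintro ⟨rfl | hb, hlt⟩
        · exact absurd hlt (lt_irrefl _)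
        · obtain ⟨j, rfl⟩ := hs hb
          refine ⟨Or.inr hb, (hcmp i j ?_).2 hlt⟩
          rintro rfl
          exact his hb
    exact congrArg Finset.card e1
  have hrklt : rk (insert (e (2 * i)) s) (e (2 * i)) < (insert (e (2 * i)) s).card := by
    refine Finset.card_lt_card ?_
    rw [Finset.ssubset_iff_of_subset (Finset.filter_subset _ _)]
    exact ⟨e (2 * i), Finset.mem_insert_self _ _, by simp⟩
  have hget : D (insert (e (2 * i)) s) (rk (insert (e (2 * i)) s) (e (2 * i))) =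
      D (insert (e (2 * i + 1)) s) (rk (insert (e (2 * i)) s) (e (2 * i))) := by
    rw [← hcard] at hlist
    exact (List.map_inj_left.1 hlist) _ (List.mem_range.2 hrklt)
  rw [hD _ _ (Finset.mem_insert_self _ _), hrk, hD _ _ (Finset.mem_insert_self _ _),
    Finset.erase_insert his, Finset.erase_insert his'] at hget
  exact hget

end Erdos

/-! ### The theorem -/

theorem metalindelof_of_not_freeSubsets {X Y : Type u} [TopologicalSpace X] [TopologicalSpace Y]
    {f : X → Y} (hf : PerfectMapping f) (hX : Metalindelof X) (hY : ¬ FreeSubsets Y) :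
    Metalindelof Y := by
  intro 𝒰 h𝒰 hcov
  have h1 : ∀ y : Y, ∃ U ∈ 𝒰, y ∈ U := fun y => mem_sUnion.1 (hcov ▸ mem_univ y : y ∈ ⋃₀ 𝒰)
  choose U hU hyU using h1
  obtain ⟨𝒱, k1, k2, k3, k4⟩ := positive hY hf hX (U := U) (fun y => h𝒰 _ (hU y))
    (eq_univ_of_forall fun y => mem_iUnion.2 ⟨y, hyU y⟩)
  refine ⟨𝒱, k1, k2, k3, fun V hV => ?_⟩
  obtain ⟨_, ⟨y, rfl⟩, hy⟩ := k4 V hV
  exact ⟨_, hU y, hy⟩

theorem nonempty_of_freeSubsets {κ : Type u} (h : FreeSubsets κ) : Nonempty κ := by
  obtain ⟨A, hA, _⟩ := h (fun _ => ∅) fun _ => countable_empty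
  exact ⟨hA.nonempty.some⟩

theorem not_metalindelof_YPt {κ : Type u} (h : FreeSubsets κ) : ¬ Metalindelof (YPt κ) := by
  have := nonempty_of_freeSubsets h
  intro hY
  refine negative h (hY _ ?_ ?_)
  · rintro _ ⟨i, rfl⟩
    exact isOpen_UU i
  · rw [sUnion_range]
    exact cover_UU

/-- **Perfect images of metalindelof spaces and free subsets.**
(1) Perfect mappings preserve metalindelofness if and only if no set has the free subset property.
(2) The same for `T₁` spaces.
(3) The local form: for every index set `κ`, all open covers indexed by `κ` of all perfect images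
of metalindelof spaces have point-countable open refinements if and only if `κ` does not have the
free subset property.
(4) Sets of cardinality less than `ℵ_ω` do not have the free subset property; hence open covers of
cardinality less than `ℵ_ω` of perfect images of metalindelof spaces have point-countable open
refinements.
(5) If `κ → (ω)^{<ω}_ω`, or if `κ` carries a countably complete nonprincipal ultrafilter, then `κ`
has the free subset property; hence there are then a metalindelof `T₁` space and a perfect mapping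
of it onto a `T₁` space that is not metalindelof. -/
theorem result :
    ((∀ (X Y : Type u) [TopologicalSpace X] [TopologicalSpace Y] (f : X → Y),
        PerfectMapping f → Metalindelof X → Metalindelof Y) ↔
      ∀ κ : Type u, ¬ FreeSubsets κ) ∧
    ((∀ (X Y : Type u) [TopologicalSpace X] [TopologicalSpace Y] (f : X → Y),
        T1Space X → T1Space Y → PerfectMapping f → Metalindelof X → Metalindelof Y) ↔
      ∀ κ : Type u, ¬ FreeSubsets κ) ∧
    (∀ κ : Type u,
      (∀ (X Y : Type u) [TopologicalSpace X] [TopologicalSpace Y] (f : X → Y),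
        PerfectMapping f → Metalindelof X → ∀ U : κ → Set Y, (∀ i, IsOpen (U i)) →
          ⋃ i, U i = Set.univ → HasPointCountableOpenRefinement (range U)) ↔
      ¬ FreeSubsets κ) ∧
    ((∀ κ : Type u, #κ < ℵ_ Ordinal.omega0 → ¬ FreeSubsets κ) ∧
      ∀ (X Y : Type u) [TopologicalSpace X] [TopologicalSpace Y] (f : X → Y),
        PerfectMapping f → Metalindelof X → ∀ 𝒰 : Set (Set Y), (∀ U ∈ 𝒰, IsOpen U) →
          ⋃₀ 𝒰 = Set.univ → #𝒰 < ℵ_ Ordinal.omega0 → HasPointCountableOpenRefinement 𝒰) ∧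
    (∀ κ : Type u, (ErdosOmega κ ∨ ∃ 𝒟 : Ultrafilter κ, CountableInterFilter (𝒟 : Filter κ) ∧
        ∀ a : κ, {a} ∉ 𝒟) →
      FreeSubsets κ ∧
      ∃ (X Y : Type u) (_ : TopologicalSpace X) (_ : TopologicalSpace Y) (f : X → Y),
        T1Space X ∧ T1Space Y ∧ PerfectMapping f ∧ Metalindelof X ∧ ¬ Metalindelof Y) := by
  refine ⟨⟨?_, ?_⟩, ⟨?_, ?_⟩, fun κ => ⟨?_, ?_⟩, ⟨fun κ => not_freeSubsets_of_lt, ?_⟩, ?_⟩
  · intro h κ hκ
    exact not_metalindelof_YPt hκ (h (XPt κ) (YPt κ) proj proj_perfect metalindelof_XPt)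
  · intro h X Y _ _ f hf hX
    exact metalindelof_of_not_freeSubsets hf hX (h Y)
  · intro h κ hκ
    exact not_metalindelof_YPt hκ (h (XPt κ) (YPt κ) proj inferInstance inferInstance
      proj_perfect metalindelof_XPt)
  · intro h X Y _ _ f _ _ hf hX
    exact metalindelof_of_not_freeSubsets hf hX (h Y)
  · intro h hκ
    have := nonempty_of_freeSubsets hκ
    exact negative hκ (h (XPt κ) (YPt κ) proj proj_perfect metalindelof_XPt UU isOpen_UU cover_UU)
  · intro h X Y _ _ f hf hX U hU hc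
    exact positive h hf hX hU hc
  · intro X Y _ _ f hf hX 𝒰 h𝒰 hcov hcard
    obtain ⟨𝒱, k1, k2, k3, k4⟩ := positive (I := 𝒰) (not_freeSubsets_of_lt hcard) hf hX
      (U := fun U : 𝒰 => U.1) (fun U => h𝒰 _ U.2) (by rw [← sUnion_eq_iUnion]; exact hcov)
    refine ⟨𝒱, k1, k2, k3, fun V hV => ?_⟩
    obtain ⟨_, ⟨U, rfl⟩, hUV⟩ := k4 V hV
    exact ⟨_, U.2, hUV⟩
  · intro κ hκ
    have hfree : FreeSubsets κ := by
      rcases hκ with hκ | ⟨𝒟, h1, h2⟩
      · exact freeSubsets_of_erdosOmega hκ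
      · have := h1
        exact freeSubsets_of_ultrafilter 𝒟 h2
    exact ⟨hfree, XPt κ, YPt κ, inferInstance, inferInstance, proj, inferInstance, inferInstance,
      proj_perfect, metalindelof_XPt, not_metalindelof_YPt hfree⟩

end Pool.Agent.Results.MP_e848aa_gt.PerfectImages
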