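import Mathlib

set_option autoImplicit false

namespace Pool.Agent.Results.MP_e848aa_gt.TfaeFreeSubset

open Set Topology

universe u

/-- `𝒰` is an open cover of the space. -/
def IsOpenCover {X : Type u} [TopologicalSpace X] (𝒰 : Set (Set X)) : Prop :=
  (∀ U ∈ 𝒰, IsOpen U) ∧ ∀ x : X, ∃ U ∈ 𝒰, x ∈ U

/-- Every member of `𝒱` is contained in a member of `𝒰`. -/
def Refines {X : Type u} (𝒱 𝒰 : Set (Set X)) : Prop := ∀ V ∈ 𝒱, ∃ U ∈ 𝒰, V ⊆ U

/-- Every point lies in at most countably many members. -/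
def PointCountable {X : Type u} (𝒱 : Set (Set X)) : Prop := ∀ x : X, {V | V ∈ 𝒱 ∧ x ∈ V}.Countable

/-- Every open cover has a point-countable open refinement (which is again a cover). -/
def Metalindelof (X : Type u) [TopologicalSpace X] : Prop :=
  ∀ 𝒰 : Set (Set X), IsOpenCover 𝒰 →
    ∃ 𝒱 : Set (Set X), IsOpenCover 𝒱 ∧ Refines 𝒱 𝒰 ∧ PointCountable 𝒱

/-- Perfect mappings: continuous closed surjections with compact fibres. -/
def IsPerfect {X Y : Type u} [TopologicalSpace X] [TopologicalSpace Y] (f : X → Y) : Prop :=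
  Continuous f ∧ IsClosedMap f ∧ Function.Surjective f ∧ ∀ y, IsCompact (f ⁻¹' {y})

/-- The infinite free subset property of `κ`. -/
def FreeSubset (κ : Type u) : Prop :=
  ∀ F : Finset κ → Set κ, (∀ G, (F G).Countable) →
    ∃ a : ℕ → κ, Function.Injective a ∧
      ∀ k, ∀ G : Finset κ, (G : Set κ) ⊆ a '' {j | j ≠ k} → a k ∉ F G

/-- closed under a set-valued function on finite sets -/
def ClosedUnder {κ : Type u} (F : Finset κ → Set κ) (M : Set κ) : Prop :=
  ∀ G : Finset κ, (G : Set κ) ⊆ M → F G ⊆ M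

/-- If `κ` does not have the free subset property then some countable valued function has no
strictly decreasing sequence of closed sets. -/
theorem dcc {κ : Type u} (h : ¬ FreeSubset κ) :
    ∃ F : Finset κ → Set κ, (∀ G, (F G).Countable) ∧
      ∀ M : ℕ → Set κ, (∀ k, ClosedUnder F (M k)) → (∀ k, M (k + 1) ⊆ M k) →
        ∃ k, M (k + 1) = M k := by
  classical
  unfold FreeSubset at h
  push Not at h
  obtain ⟨F0, hF0, hno⟩ := h
  obtain ⟨r, wo⟩ : ∃ r : κ → κ → Prop, IsWellOrder κ r := ⟨WellOrderingRel, inferInstance⟩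
  let _ : LinearOrder κ := linearOrderOfSTO r
  have hwf : WellFounded ((· < ·) : κ → κ → Prop) := wo.wf
  -- witnesses below
  let w : Finset κ → κ → Finset κ := fun p a =>
    if h : ∃ G : Finset κ, (∀ g ∈ G, g < a) ∧ a ∈ F0 (G ∪ p) then h.choose else ∅
  have hw : ∀ p a, (∃ G : Finset κ, (∀ g ∈ G, g < a) ∧ a ∈ F0 (G ∪ p)) →
      (∀ g ∈ w p a, g < a) ∧ a ∈ F0 (w p a ∪ p) := by
    intro p a h
    simp only [w, dif_pos h]
    exact h.choose_spec
  let F : Finset κ → Set κ := fun H => F0 H ∪ ⋃ a ∈ H, ⋃ p ∈ H.powerset, (w p a : Set κ)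
  refine ⟨F, fun H => ?_, ?_⟩
  · exact (hF0 H).union (H.countable_toSet.biUnion fun a _ =>
      (H.powerset.countable_toSet.biUnion fun p _ => (w p a).countable_toSet))
  intro M hM hdec
  by_contra hne
  push Not at hne
  have hanti : ∀ i j, i ≤ j → M j ⊆ M i := fun i j hij => antitone_nat_of_succ_le hdec hij
  set A : Set κ := ⋂ k, M k with hA
  have hnon : ∀ k, (M k \ A).Nonempty := by
    intro k
    have : ¬ M k ⊆ M (k + 1) := fun h => hne k (subset_antisymm (hdec k) h)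
    obtain ⟨x, hx, hx'⟩ := not_subset.mp this
    exact ⟨x, hx, fun hA => hx' (mem_iInter.mp hA _)⟩
  let b : ℕ → κ := fun k => hwf.min (M k \ A) (hnon k)
  have hb : ∀ k, b k ∈ M k ∧ b k ∉ A := fun k => hwf.min_mem (M k \ A) (hnon k)
  have hbmin : ∀ k x, x ∈ M k → x < b k → x ∈ A := by
    intro k x hx hlt
    by_contra hxA
    exact hwf.not_lt_min (M k \ A) ⟨hx, hxA⟩ hlt
  have hnext : ∀ k, ∃ l, k < l ∧ b k ∉ M l := by
    intro k
    have := (hb k).2
    rw [hA, mem_iInter] at this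
    push Not at this
    obtain ⟨l, hl⟩ := this
    refine ⟨max l (k + 1), by omega, fun h => hl (hanti _ _ (le_max_left _ _) h)⟩
  choose nx hnx1 hnx2 using hnext
  let n : ℕ → ℕ := fun i => Nat.rec 0 (fun _ k => nx k) i
  have hn : ∀ i, n (i + 1) = nx (n i) := fun i => rfl
  have hnmono : Monotone n := monotone_nat_of_le_succ fun i => by rw [hn]; exact (hnx1 _).le
  let a : ℕ → κ := fun i => b (n i)
  have haM : ∀ i, a i ∈ M (n i) := fun i => (hb _).1
  have haM' : ∀ i, a i ∉ M (n (i + 1)) := fun i => by rw [hn]; exact hnx2 _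
  have hastep : ∀ i, a i < a (i + 1) := by
    intro i
    by_contra hcon
    rw [not_lt] at hcon
    rcases hcon.lt_or_eq with h | h
    · exact (hb (n (i + 1))).2 (hbmin (n i) _ (hanti _ _ (hnmono (Nat.le_succ i)) (haM (i + 1))) h)
    · apply haM' i
      rw [← h]
      exact haM (i + 1)
  have hamono : StrictMono a := strictMono_nat_of_lt_succ hastep
  obtain ⟨k, G, hG, hkG⟩ := hno a hamono.injective
  set p : Finset κ := G.filter (fun g => a k < g) with hp
  set G1 : Finset κ := G.filter (fun g => g < a k) with hG1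
  have hsplit : G = G1 ∪ p := by
    ext x
    simp only [hp, hG1, Finset.mem_union, Finset.mem_filter]
    constructor
    · intro hx
      rcases lt_trichotomy x (a k) with h | h | h
      · exact Or.inl ⟨hx, h⟩
      · exfalso
        obtain ⟨j, hj, hjx⟩ := hG hx
        rw [h] at hjx
        exact hj (hamono.injective hjx)
      · exact Or.inr ⟨hx, h⟩
    · rintro (h | h)
      · exact h.1
      · exact h.1
  have hpM : (p : Set κ) ⊆ M (n (k + 1)) := by
    intro x hx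
    rw [Finset.mem_coe, hp, Finset.mem_filter] at hx
    obtain ⟨j, hj, rfl⟩ := hG hx.1
    have : k < j := hamono.lt_iff_lt.mp hx.2
    exact hanti _ _ (hnmono this) (haM j)
  obtain ⟨h1, h2⟩ := hw p (a k) ⟨G1, fun g hg => (Finset.mem_filter.mp hg).2, by rwa [← hsplit]⟩
  have h3 : (w p (a k) : Set κ) ⊆ M (n k) := by
    refine subset_trans ?_ (hM (n k) (insert (a k) p) ?_)
    · refine subset_trans ?_ subset_union_right
      intro x hx
      exact mem_iUnion₂.mpr ⟨a k, Finset.mem_insert_self _ _, mem_iUnion₂.mpr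
        ⟨p, Finset.mem_powerset.mpr (Finset.subset_insert _ _), hx⟩⟩
    · rw [Finset.coe_insert, insert_subset_iff]
      exact ⟨haM k, hpM.trans (hanti _ _ (hnmono (Nat.le_succ k)))⟩
  have h4 : (w p (a k) : Set κ) ⊆ M (n (k + 1)) := by
    intro x hx
    have := hbmin (n k) x (h3 hx) (h1 x hx)
    exact mem_iInter.mp this _
  apply haM' k
  apply hM (n (k + 1)) (w p (a k) ∪ p)
  · rw [Finset.coe_union]
    exact union_subset h4 hpM
  · exact Or.inl h2

section closure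

variable {I : Type u}

/-- iterated closure under a set-valued function on finite subsets -/
def clN (F : Finset I → Set I) (S : Set I) : ℕ → Set I
  | 0 => S
  | k + 1 => clN F S k ∪ ⋃ G ∈ {G : Finset I | (G : Set I) ⊆ clN F S k}, F G

/-- closure -/
def cl (F : Finset I → Set I) (S : Set I) : Set I := ⋃ k, clN F S k

lemma clN_mono (F : Finset I → Set I) (S : Set I) : Monotone (clN F S) :=
  monotone_nat_of_le_succ fun _ => subset_union_left

lemma subset_cl (F : Finset I → Set I) (S : Set I) : S ⊆ cl F S :=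
  subset_iUnion (clN F S) 0

lemma cl_closed (F : Finset I → Set I) (S : Set I) : ClosedUnder F (cl F S) := by
  intro G hG
  have : ∃ k, (G : Set I) ⊆ clN F S k := by
    classical
    induction G using Finset.induction_on with
    | empty => exact ⟨0, by simp⟩
    | insert a G ha ih =>
      rw [Finset.coe_insert, insert_subset_iff] at hG
      obtain ⟨k, hk⟩ := ih hG.2
      obtain ⟨l, hl⟩ := mem_iUnion.mp hG.1
      refine ⟨max k l, ?_⟩
      rw [Finset.coe_insert, insert_subset_iff]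
      exact ⟨clN_mono F S (le_max_right k l) hl, hk.trans (clN_mono F S (le_max_left k l))⟩
  obtain ⟨k, hk⟩ := this
  refine subset_trans ?_ (subset_iUnion (clN F S) (k + 1))
  exact subset_trans (subset_biUnion_of_mem (u := F) (show G ∈ {G : Finset I | (G : Set I) ⊆ clN F S k} from hk))
    subset_union_right

lemma countable_finsets (T : Set I) (hT : T.Countable) : {G : Finset I | (G : Set I) ⊆ T}.Countable := by
  classical
  have := hT.to_subtype
  refine (countable_range (fun G : Finset T => G.map (Function.Embedding.subtype _))).mono ?_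
  intro G hG
  refine ⟨G.subtype (· ∈ T), ?_⟩
  ext x
  simp only [Finset.mem_map, Finset.mem_subtype, Function.Embedding.coe_subtype, Subtype.exists,
    exists_and_left, exists_prop]
  constructor
  · rintro ⟨y, hy, hyT, rfl⟩
    exact hy
  · intro hx
    exact ⟨x, hx, hG hx, rfl⟩

lemma cl_countable (F : Finset I → Set I) (hF : ∀ G, (F G).Countable) (S : Set I)
    (hS : S.Countable) : (cl F S).Countable := by
  refine countable_iUnion fun k => ?_
  induction k with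
  | zero => exact hS
  | succ k ih => exact ih.union ((countable_finsets _ ih).biUnion fun G _ => hF G)

lemma cl_open {X : Type u} [TopologicalSpace X] (F : Finset I → Set I) (S : X → Set I)
    (hS : ∀ l, IsOpen {x | l ∈ S x}) (l : I) : IsOpen {x | l ∈ cl F (S x)} := by
  have h : ∀ k, ∀ l, IsOpen {x | l ∈ clN F (S x) k} := by
    intro k
    induction k with
    | zero => exact hS
    | succ k ih =>
      intro l
      have : {x | l ∈ clN F (S x) (k + 1)} = {x | l ∈ clN F (S x) k} ∪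
          ⋃ G ∈ {G : Finset I | l ∈ F G}, ⋂ g ∈ G, {x | g ∈ clN F (S x) k} := by
        ext x
        simp only [clN, mem_ofPred_eq, mem_union, mem_iUnion, mem_iInter, exists_prop]
        constructor
        · rintro (h | ⟨G, hG, hl⟩)
          · exact Or.inl h
          · exact Or.inr ⟨G, hl, fun g hg => hG hg⟩
        · rintro (h | ⟨G, hG, hl⟩)
          · exact Or.inl h
          · exact Or.inr ⟨G, fun g hg => hl g hg, hG⟩
      rw [this]
      exact (ih l).union (isOpen_biUnion fun G _ => isOpen_biInter_finset fun g _ => ih g)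
  have : {x | l ∈ cl F (S x)} = ⋃ k, {x | l ∈ clN F (S x) k} := by
    ext x
    simp [cl]
  rw [this]
  exact isOpen_iUnion fun k => h k l

end closure

section positive

variable {X Y : Type u} [TopologicalSpace X] [TopologicalSpace Y]

/-- Indexed form of the metalindelöf property. -/
lemma indexed (hX : Metalindelof X) {Λ : Type u} (O : Λ → Set X) (hO : ∀ l, IsOpen (O l))
    (hOc : ∀ x, ∃ l, x ∈ O l) :
    ∃ V : Λ → Set X, (∀ l, IsOpen (V l)) ∧ (∀ l, V l ⊆ O l) ∧ (∀ x, ∃ l, x ∈ V l) ∧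
      ∀ x, {l | x ∈ V l}.Countable := by
  obtain ⟨𝒱, hVc, hVr, hVp⟩ := hX (range O) ⟨by rintro _ ⟨l, rfl⟩; exact hO l,
    fun x => by obtain ⟨l, hl⟩ := hOc x; exact ⟨O l, ⟨l, rfl⟩, hl⟩⟩
  have h0 : ∀ A : 𝒱, ∃ l, (A : Set X) ⊆ O l := by
    rintro ⟨A, hA⟩
    obtain ⟨_, ⟨l, rfl⟩, h⟩ := hVr A hA
    exact ⟨l, h⟩
  choose lab hlab using h0
  refine ⟨fun l => ⋃ A ∈ {A : 𝒱 | lab A = l}, (A : Set X), fun l => ?_, fun l => ?_, fun x => ?_,
    fun x => ?_⟩
  · exact isOpen_biUnion fun A _ => hVc.1 A A.2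
  · refine iUnion₂_subset fun A hA => ?_
    have : lab A = l := hA
    rw [← this]
    exact hlab A
  · obtain ⟨A, hA, hx⟩ := hVc.2 x
    exact ⟨lab ⟨A, hA⟩, mem_iUnion₂.mpr ⟨⟨A, hA⟩, rfl, hx⟩⟩
  · have h1 : {A : 𝒱 | x ∈ (A : Set X)}.Countable := by
      have := (hVp x).preimage (f := fun A : 𝒱 => (A : Set X)) Subtype.val_injective
      refine this.mono ?_
      intro A hA
      exact ⟨A.2, hA⟩
    refine (h1.image lab).mono ?_
    intro l hl
    obtain ⟨A, hA, hx⟩ := mem_iUnion₂.mp hl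
    exact ⟨A, hx, hA⟩

theorem local_positive {Λ : Type u} (hΛ : ¬ FreeSubset Λ) (c : Λ → Set Λ)
    (hc : ∀ l, (c l).Countable) (hcc : ∀ S : Set Λ, S.Countable → ∃ l, S ⊆ c l)
    (hX : Metalindelof X) (f : X → Y) (hf : Continuous f) (hcl : IsClosedMap f)
    (hs : Function.Surjective f) (hL : ∀ y, IsLindelof (f ⁻¹' {y}))
    (U : Λ → Set Y) (hU : ∀ l, IsOpen (U l)) (hUc : ∀ y, ∃ l, y ∈ U l) :
    ∃ G : Λ → Set Y, (∀ l, IsOpen (G l)) ∧ (∀ l, G l ⊆ U l) ∧ (∀ y, ∃ l, y ∈ G l) ∧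
      ∀ y, {l | y ∈ G l}.Countable := by
  classical
  -- levels
  let Lev := {V : Λ → Set X // (∀ l, IsOpen (V l)) ∧ (∀ x, ∃ l, x ∈ V l) ∧
    ∀ x, {l | x ∈ V l}.Countable}
  obtain ⟨V0, hV0o, hV0U, hV0c, hV0p⟩ := indexed hX (fun l => f ⁻¹' (U l))
    (fun l => (hU l).preimage hf) (fun x => hUc (f x))
  have hstep : ∀ V : Lev, ∃ V' : Lev, ∀ l, ∀ x ∈ V'.1 l, f ⁻¹' {f x} ⊆ ⋃ l' ∈ c l, V.1 l' := by
    rintro ⟨V, hVo, hVc, hVp⟩
    obtain ⟨V', h1, h2, h3, h4⟩ := indexed hX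
      (fun l => f ⁻¹' (f '' (⋃ l' ∈ c l, V l')ᶜ)ᶜ) (fun l => by
        refine IsOpen.preimage hf ?_
        rw [isOpen_compl_iff]
        apply hcl
        rw [isClosed_compl_iff]
        exact isOpen_biUnion fun l' _ => hVo l') (fun x => by
        choose g hg using hVc
        obtain ⟨t, htc, -, ht⟩ := (hL (f x)).elim_nhds_subcover (fun z => V (g z))
          (fun z _ => (hVo _).mem_nhds (hg z))
        obtain ⟨l, hl⟩ := hcc (g '' t) (htc.image g)
        refine ⟨l, ?_⟩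
        rintro ⟨z, hz, hzx⟩
        apply hz
        obtain ⟨w, hw, hzw⟩ := mem_iUnion₂.mp (ht (show z ∈ f ⁻¹' {f x} from hzx))
        exact mem_iUnion₂.mpr ⟨g w, hl ⟨w, hw, rfl⟩, hzw⟩)
    refine ⟨⟨V', h1, h3, h4⟩, fun l x hx z hz => ?_⟩
    by_contra hcon
    exact h2 l hx ⟨z, hcon, hz⟩
  choose nx hnx using hstep
  let L : ℕ → Lev := fun n => Nat.rec ⟨V0, hV0o, hV0c, hV0p⟩ (fun _ K => nx K) n
  have hLs : ∀ n, L (n + 1) = nx (L n) := fun n => rfl
  have hL0 : (L 0).1 = V0 := rfl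
  -- closure operator
  obtain ⟨F0, hF0, hdcc⟩ := dcc hΛ
  let F : Finset Λ → Set Λ := fun G => F0 G ∪ ⋃ l ∈ G, c l
  have hF : ∀ G, (F G).Countable := fun G => (hF0 G).union (G.countable_toSet.biUnion fun l _ => hc l)
  let S : X → Set Λ := fun x => {l | ∃ n, x ∈ (L n).1 l}
  have hSo : ∀ l, IsOpen {x | l ∈ S x} := by
    intro l
    have : {x | l ∈ S x} = ⋃ n, (L n).1 l := by
      ext x
      simp [S]
    rw [this]
    exact isOpen_iUnion fun n => (L n).2.1 l
  have hSc : ∀ x, (S x).Countable := by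
    intro x
    have : S x = ⋃ n, {l | x ∈ (L n).1 l} := by
      ext l
      simp [S]
    rw [this]
    exact countable_iUnion fun n => (L n).2.2.2 x
  let N : X → Set Λ := fun x => cl F (S x)
  have hNc : ∀ x, (N x).Countable := fun x => cl_countable F hF _ (hSc x)
  have hNcl : ∀ x, ClosedUnder F (N x) := fun x => cl_closed F _
  let O : Λ → Set X := fun l => {x | l ∈ N x}
  have hO : ∀ l, IsOpen (O l) := fun l => cl_open F S hSo l
  have hpar : ∀ l, ∀ l' ∈ c l, O l ⊆ O l' := by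
    intro l l' hl' x hx
    have h1 : (({l} : Finset Λ) : Set Λ) ⊆ N x := by
      rw [Finset.coe_singleton, singleton_subset_iff]
      exact hx
    exact hNcl x _ h1 (Or.inr (mem_iUnion₂.mpr ⟨l, Finset.mem_singleton_self _, hl'⟩))
  have hSO : ∀ n l, (L n).1 l ⊆ O l := fun n l x hx => subset_cl F (S x) ⟨n, hx⟩
  -- finite subsets of fibres
  have key : ∀ y : Y, ∀ n l, ((L n).1 l ∩ f ⁻¹' {y}).Nonempty → ∀ T : Finset X,
      (T : Set X) ⊆ f ⁻¹' {y} → T.card ≤ n →
      ∃ l0, (V0 l0 ∩ f ⁻¹' {y}).Nonempty ∧ O l ⊆ O l0 ∧ (T : Set X) ⊆ O l0 := by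
    intro y n
    induction n with
    | zero =>
      intro l hl T hT hcard
      refine ⟨l, hl, subset_rfl, ?_⟩
      rw [Nat.le_zero, Finset.card_eq_zero] at hcard
      rw [hcard]
      simp
    | succ n ih =>
      rintro l ⟨x, hxl, hxy⟩ T hT hcard
      obtain ⟨s, hsy, hsT⟩ : ∃ s, f s = y ∧ (T.erase s).card ≤ n := by
        rcases T.eq_empty_or_nonempty with h | ⟨s, hsT⟩
        · obtain ⟨s, rfl⟩ := hs y
          exact ⟨s, rfl, by rw [h]; simp⟩
        · exact ⟨s, hT hsT, by rw [Finset.card_erase_of_mem hsT]; omega⟩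
      have h4 : f ⁻¹' {f x} ⊆ ⋃ l' ∈ c l, (L n).1 l' := hnx (L n) l x hxl
      have hxy' : f x = y := hxy
      rw [hxy'] at h4
      obtain ⟨l', hl', hsl'⟩ := mem_iUnion₂.mp (h4 (show s ∈ f ⁻¹' {y} from hsy))
      obtain ⟨l0, hl0, h5, h6⟩ := ih l' ⟨s, hsl', hsy⟩ (T.erase s)
        (fun t ht => hT (Finset.mem_of_mem_erase ht)) hsT
      refine ⟨l0, hl0, (hpar l l' hl').trans h5, ?_⟩
      intro t ht
      by_cases hts : t = s
      · rw [hts]
        exact h5 (hSO n l' hsl')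
      · exact h6 (Finset.mem_erase.mpr ⟨hts, ht⟩)
  have key' : ∀ y : Y, ∀ T : Finset X, (T : Set X) ⊆ f ⁻¹' {y} →
      ∃ l0, (V0 l0 ∩ f ⁻¹' {y}).Nonempty ∧ (T : Set X) ⊆ O l0 := by
    intro y T hT
    obtain ⟨x, hx⟩ := hs y
    obtain ⟨l, hl⟩ := (L T.card).2.2.1 x
    obtain ⟨l0, h1, -, h2⟩ := key y T.card l ⟨x, hl, hx⟩ T hT le_rfl
    exact ⟨l0, h1, h2⟩
  -- a common label
  have main : ∀ y : Y, ∃ l, (V0 l ∩ f ⁻¹' {y}).Nonempty ∧ f ⁻¹' {y} ⊆ O l := by
    intro y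
    have h1 : ∃ T : Finset X, (T : Set X) ⊆ f ⁻¹' {y} ∧
        ∀ x' ∈ f ⁻¹' {y}, (⋂ x ∈ T, N x) ⊆ N x' := by
      by_contra hcon
      push Not at hcon
      let St := {T : Finset X // (T : Set X) ⊆ f ⁻¹' {y}}
      have h2 : ∀ T : St, ∃ x' ∈ f ⁻¹' {y}, ¬ (⋂ x ∈ T.1, N x) ⊆ N x' := fun T => hcon T.1 T.2
      choose g hg hg' using h2
      let T : ℕ → St := fun n => Nat.rec ⟨∅, by simp⟩ (fun _ T => ⟨insert (g T) T.1, by
        rw [Finset.coe_insert, insert_subset_iff]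
        exact ⟨hg T, T.2⟩⟩) n
      have hT : ∀ n, (T (n + 1)).1 = insert (g (T n)) (T n).1 := fun n => rfl
      obtain ⟨k, hk⟩ := hdcc (fun n => ⋂ x ∈ (T n).1, N x) (fun n G hG => by
        refine subset_iInter₂ fun x hx => ?_
        exact subset_trans subset_union_left (hNcl x G (hG.trans (biInter_subset_of_mem hx))))
        (fun n => by
          refine subset_iInter₂ fun x hx => ?_
          have h3 : x ∈ (T (n + 1)).1 := by
            rw [hT]
            exact Finset.mem_insert_of_mem hx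
          exact iInter₂_subset x h3)
      apply hg' (T k)
      have h3 : g (T k) ∈ (T (k + 1)).1 := by
        rw [hT]
        exact Finset.mem_insert_self _ _
      exact hk.symm.subset.trans (iInter₂_subset (g (T k)) h3)
    obtain ⟨T, hT, h2⟩ := h1
    obtain ⟨l0, h3, h4⟩ := key' y T hT
    refine ⟨l0, h3, fun x' hx' => ?_⟩
    exact h2 x' hx' (mem_iInter₂.mpr fun x hx => h4 hx)
  refine ⟨fun l => (f '' (O l)ᶜ)ᶜ ∩ U l, fun l => ?_, fun l => inter_subset_right, fun y => ?_,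
    fun y => ?_⟩
  · exact (hcl _ (hO l).isClosed_compl).isOpen_compl.inter (hU l)
  · obtain ⟨l, ⟨x, hx, hxy⟩, h⟩ := main y
    refine ⟨l, ?_, ?_⟩
    · rintro ⟨z, hz, hzy⟩
      exact hz (h hzy)
    · have := hV0U l hx
      rwa [mem_preimage, show f x = y from hxy] at this
  · obtain ⟨x, hx⟩ := hs y
    refine (hNc x).mono ?_
    rintro l ⟨hl, -⟩
    by_contra hcon
    exact hl ⟨x, hcon, hx⟩

end positive

section freeset

/-- Every finite-set mapping on an uncountable set has an uncountable free set. -/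
lemma exists_free {κ : Type u} (E : Set κ) (hE : ¬ E.Countable) (p : κ → Finset κ) :
    ∃ E' ⊆ E, ¬ E'.Countable ∧ ∀ ν ∈ E', ∀ ν' ∈ E', ν ≠ ν' → ν' ∉ p ν := by
  classical
  let P : ℕ → Prop := fun n => ∃ C : Set κ, C.Countable ∧
    ¬ {ν | ν ∈ E ∧ ((p ν : Set κ) \ C).ncard ≤ n}.Countable
  have hP : ∃ n, P n := by
    by_contra hcon
    push Not at hcon
    apply hE
    have h1 : ∀ n, {ν | ν ∈ E ∧ ((p ν : Set κ) \ ∅).ncard ≤ n}.Countable := by
      intro n
      have := hcon n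
      simp only [P] at this
      push Not at this
      exact this ∅ countable_empty
    refine (countable_iUnion h1).mono ?_
    intro ν hν
    exact mem_iUnion.mpr ⟨_, hν, le_rfl⟩
  obtain ⟨C, hC, hunc⟩ := Nat.find_spec hP
  set n := Nat.find hP with hn
  set E1 : Set κ := {ν | ν ∈ E ∧ ((p ν : Set κ) \ C).ncard ≤ n} \ C with hE1
  have hE1unc : ¬ E1.Countable := fun h => hunc ((h.union hC).mono (by
    intro ν hν
    by_cases hνC : ν ∈ C
    · exact Or.inr hνC
    · exact Or.inl ⟨hν, hνC⟩))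
  let 𝒮 : Set (Set κ) := {M | M ⊆ E1 ∧ ∀ ν ∈ M, ∀ ν' ∈ M, ν ≠ ν' → ν' ∉ p ν}
  obtain ⟨M, hM⟩ := zorn_subset 𝒮 (by
    intro c hc hchain
    refine ⟨⋃₀ c, ⟨sUnion_subset fun s hs => (hc hs).1, ?_⟩, fun s hs => subset_sUnion_of_mem hs⟩
    rintro ν ⟨s, hs, hνs⟩ ν' ⟨t, ht, hνt⟩ hne
    rcases hchain.total hs ht with h | h
    · exact (hc ht).2 ν (h hνs) ν' hνt hne
    · exact (hc hs).2 ν hνs ν' (h hνt) hne)
  refine ⟨M, fun ν hν => (hM.prop.1 hν).1.1, fun hMc => ?_, hM.prop.2⟩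
  set E2 : Set κ := E1 \ (M ∪ ⋃ μ ∈ M, (p μ : Set κ)) with hE2
  have hE2unc : ¬ E2.Countable := by
    intro h
    apply hE1unc
    refine (h.union (hMc.union (hMc.biUnion fun μ _ => (p μ).countable_toSet))).mono ?_
    intro ν hν
    by_cases h' : ν ∈ M ∪ ⋃ μ ∈ M, (p μ : Set κ)
    · exact Or.inr h'
    · exact Or.inl ⟨hν, h'⟩
  have hmeet : ∀ ν ∈ E2, ∃ μ ∈ M, μ ∈ p ν := by
    rintro ν ⟨hν1, hν2⟩
    by_contra hcon
    push Not at hcon
    have hins : insert ν M ∈ 𝒮 := by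
      refine ⟨insert_subset_iff.mpr ⟨hν1, hM.prop.1⟩, ?_⟩
      intro a ha b hb hab
      rcases mem_insert_iff.mp ha with h1 | h1
      · rcases mem_insert_iff.mp hb with h2 | h2
        · exact absurd (h1.trans h2.symm) hab
        · rw [h1]
          exact hcon b h2
      · rcases mem_insert_iff.mp hb with h2 | h2
        · intro h
          rw [h2] at h
          exact hν2 (Or.inr (mem_iUnion₂.mpr ⟨a, h1, h⟩))
        · exact hM.prop.2 a h1 b h2 hab
    have := hM.eq_of_subset hins (subset_insert _ _)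
    apply hν2
    left
    rw [this]
    exact mem_insert _ _
  have hlt : ∀ ν ∈ E2, ((p ν : Set κ) \ (C ∪ M)).ncard < ((p ν : Set κ) \ C).ncard := by
    intro ν hν
    obtain ⟨μ, hμM, hμp⟩ := hmeet ν hν
    apply Set.ncard_lt_ncard
    · rw [ssubset_iff_of_subset]
      · exact ⟨μ, ⟨hμp, (hM.prop.1 hμM).2⟩, fun h => h.2 (Or.inr hμM)⟩
      · intro x hx
        exact ⟨hx.1, fun h => hx.2 (Or.inl h)⟩
    · exact (p ν).finite_toSet.subset sdiff_subset
  rcases Nat.eq_zero_or_pos n with h0 | hpos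
  · apply hE2unc
    have : E2 = ∅ := by
      apply eq_empty_of_forall_notMem
      intro ν hν
      have h1 := hlt ν hν
      have h2 : ((p ν : Set κ) \ C).ncard ≤ n := hν.1.1.2
      omega
    rw [this]
    exact countable_empty
  · have : ¬ P (n - 1) := Nat.find_min hP (by omega)
    apply this
    refine ⟨C ∪ M, hC.union hMc, fun h => hE2unc (h.mono ?_)⟩
    intro ν hν
    have h1 := hlt ν hν
    have h2 : ((p ν : Set κ) \ C).ncard ≤ n := hν.1.1.2
    exact ⟨hν.1.1.1, by omega⟩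

end freeset

section negative

/-- `w` agrees with `z` on the first `n` coordinates as far as `e` and the elements of `z` can
tell. -/
def Near {κ : Type u} (n : ℕ) (e : Finset κ) (z w : ℕ → Set κ) : Prop :=
  ∀ i < n, z i ⊆ w i ∧ ∀ u ∈ e, u ∈ w i → u ∈ z i

lemma Near.refl {κ : Type u} (n : ℕ) (e : Finset κ) (z : ℕ → Set κ) : Near n e z z :=
  fun _ _ => ⟨subset_rfl, fun _ _ h => h⟩

lemma Near.trans {κ : Type u} {n : ℕ} {e : Finset κ} {z w v : ℕ → Set κ} (h : Near n e z w)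
    (h' : Near n e w v) : Near n e z v :=
  fun i hi => ⟨(h i hi).1.trans (h' i hi).1, fun u hu huv => (h i hi).2 u hu ((h' i hi).2 u hu huv)⟩

lemma Near.mono {κ : Type u} {n n' : ℕ} {e e' : Finset κ} {z w : ℕ → Set κ} (h : Near n' e' z w)
    (hn : n ≤ n') (he : e ⊆ e') : Near n e z w :=
  fun i hi => ⟨(h i (hi.trans_le hn)).1, fun u hu => (h i (hi.trans_le hn)).2 u (he hu)⟩

/-- If `w` is not near `z` then nothing near `w` is near `z`. -/
lemma not_near {κ : Type u} {n : ℕ} {e : Finset κ} {z w : ℕ → Set κ} (h : ¬ Near n e z w) :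
    ∃ e', ∀ v, Near n e' w v → ¬ Near n e z v := by
  unfold Near at h
  push Not at h
  obtain ⟨i, hi, h⟩ := h
  by_cases h1 : z i ⊆ w i
  · obtain ⟨u, hu, huw, huz⟩ := h h1
    exact ⟨∅, fun v hv hv' => huz ((hv' i hi).2 u hu ((hv i hi).1 huw))⟩
  · obtain ⟨u, huz, huw⟩ := not_subset.mp h1
    exact ⟨{u}, fun v hv hv' => huw ((hv i hi).2 u (Finset.mem_singleton_self _) ((hv' i hi).1 huz))⟩

variable (κ : Type u)

/-- Sequences of sets with at most one element, infinitely many of them nonempty. -/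
def ZP : Type u := {z : ℕ → Set κ // (∀ i, (z i).Subsingleton) ∧ {i | (z i).Nonempty}.Infinite}

/-- Pairs `(j, d)` where `d` is a sequence of sets of which exactly the one in position `j` has
more than one element. -/
def DP : Type u := {d : ℕ × (ℕ → Set κ) // ¬ (d.2 d.1).Subsingleton ∧
  ∀ i, i ≠ d.1 → (d.2 i).Subsingleton}

/-- the space upstairs -/
def XT : Type u := (ZP κ × Option ℕ) ⊕ DP κ

/-- the space downstairs -/
def YT : Type u := ZP κ ⊕ DP κ

variable {κ}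

/-- points of `XT` -/
def pt (z : ZP κ) (m : Option ℕ) : XT κ := Sum.inl (z, m)

/-- isolated points of `XT` -/
def ip (d : DP κ) : XT κ := Sum.inr d

/-- points of `YT` -/
def pt' (z : ZP κ) : YT κ := Sum.inl z

/-- isolated points of `YT` -/
def ip' (d : DP κ) : YT κ := Sum.inr d

instance : TopologicalSpace (XT κ) where
  IsOpen O := (∀ z m, pt z (some m) ∈ O → ∃ n e, (∀ w : ZP κ, Near n e z.1 w.1 → pt w (some m) ∈ O) ∧
      ∀ d : DP κ, d.1.1 = m → Near n e z.1 d.1.2 → ip d ∈ O) ∧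
    (∀ z, pt z none ∈ O → ∃ n e, (∀ w : ZP κ, Near n e z.1 w.1 → pt w none ∈ O ∧
      ∀ m, n ≤ m → pt w (some m) ∈ O) ∧ ∀ d : DP κ, n ≤ d.1.1 → Near n e z.1 d.1.2 → ip d ∈ O)
  isOpen_univ := by
    refine ⟨fun z m _ => ⟨0, ∅, ?_, ?_⟩, fun z _ => ⟨0, ∅, ?_, ?_⟩⟩
    · exact fun _ _ => mem_univ _
    · exact fun _ _ _ => mem_univ _
    · exact fun _ _ => ⟨mem_univ _, fun _ _ => mem_univ _⟩
    · exact fun _ _ _ => mem_univ _
  isOpen_inter := by
    classical
    rintro A B ⟨hA1, hA2⟩ ⟨hB1, hB2⟩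
    refine ⟨fun z m h => ?_, fun z h => ?_⟩
    · obtain ⟨n, e, h1, h2⟩ := hA1 z m h.1
      obtain ⟨n', e', h3, h4⟩ := hB1 z m h.2
      refine ⟨max n n', e ∪ e', fun w hw => ⟨h1 w ?_, h3 w ?_⟩, fun d hd hw => ⟨h2 d hd ?_, h4 d hd ?_⟩⟩
      · exact hw.mono (le_max_left _ _) Finset.subset_union_left
      · exact hw.mono (le_max_right _ _) Finset.subset_union_right
      · exact hw.mono (le_max_left _ _) Finset.subset_union_left
      · exact hw.mono (le_max_right _ _) Finset.subset_union_right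
    · obtain ⟨n, e, h1, h2⟩ := hA2 z h.1
      obtain ⟨n', e', h3, h4⟩ := hB2 z h.2
      refine ⟨max n n', e ∪ e', fun w hw => ⟨⟨(h1 w ?_).1, (h3 w ?_).1⟩, fun m hm =>
        ⟨(h1 w ?_).2 m ((le_max_left _ _).trans hm), (h3 w ?_).2 m ((le_max_right _ _).trans hm)⟩⟩,
        fun d hd hw => ⟨h2 d ((le_max_left _ _).trans hd) ?_, h4 d ((le_max_right _ _).trans hd) ?_⟩⟩
      · exact hw.mono (le_max_left _ _) Finset.subset_union_left
      · exact hw.mono (le_max_right _ _) Finset.subset_union_right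
      · exact hw.mono (le_max_left _ _) Finset.subset_union_left
      · exact hw.mono (le_max_right _ _) Finset.subset_union_right
      · exact hw.mono (le_max_left _ _) Finset.subset_union_left
      · exact hw.mono (le_max_right _ _) Finset.subset_union_right
  isOpen_sUnion := by
    intro 𝒮 h𝒮
    refine ⟨fun z m h => ?_, fun z h => ?_⟩
    · obtain ⟨O, hO, hz⟩ := h
      obtain ⟨n, e, h1, h2⟩ := (h𝒮 O hO).1 z m hz
      exact ⟨n, e, fun w hw => ⟨O, hO, h1 w hw⟩, fun d hd hw => ⟨O, hO, h2 d hd hw⟩⟩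
    · obtain ⟨O, hO, hz⟩ := h
      obtain ⟨n, e, h1, h2⟩ := (h𝒮 O hO).2 z hz
      exact ⟨n, e, fun w hw => ⟨⟨O, hO, (h1 w hw).1⟩, fun m hm => ⟨O, hO, (h1 w hw).2 m hm⟩⟩,
        fun d hd hw => ⟨O, hO, h2 d hd hw⟩⟩

instance : TopologicalSpace (YT κ) where
  IsOpen G := ∀ z, pt' z ∈ G → ∃ n e, (∀ w : ZP κ, Near n e z.1 w.1 → pt' w ∈ G) ∧
    ∀ d : DP κ, Near n e z.1 d.1.2 → ip' d ∈ G
  isOpen_univ := fun z _ => ⟨0, ∅, fun _ _ => mem_univ _, fun _ _ => mem_univ _⟩
  isOpen_inter := by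
    classical
    intro A B hA hB z h
    obtain ⟨n, e, h1, h2⟩ := hA z h.1
    obtain ⟨n', e', h3, h4⟩ := hB z h.2
    refine ⟨max n n', e ∪ e', fun w hw => ⟨h1 w ?_, h3 w ?_⟩, fun d hw => ⟨h2 d ?_, h4 d ?_⟩⟩
    · exact hw.mono (le_max_left _ _) Finset.subset_union_left
    · exact hw.mono (le_max_right _ _) Finset.subset_union_right
    · exact hw.mono (le_max_left _ _) Finset.subset_union_left
    · exact hw.mono (le_max_right _ _) Finset.subset_union_right
  isOpen_sUnion := by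
    intro 𝒮 h𝒮 z h
    obtain ⟨O, hO, hz⟩ := h
    obtain ⟨n, e, h1, h2⟩ := h𝒮 O hO z hz
    exact ⟨n, e, fun w hw => ⟨O, hO, h1 w hw⟩, fun d hw => ⟨O, hO, h2 d hw⟩⟩

lemma openX_iff (O : Set (XT κ)) : IsOpen O ↔
    (∀ z m, pt z (some m) ∈ O → ∃ n e, (∀ w : ZP κ, Near n e z.1 w.1 → pt w (some m) ∈ O) ∧
      ∀ d : DP κ, d.1.1 = m → Near n e z.1 d.1.2 → ip d ∈ O) ∧
    (∀ z, pt z none ∈ O → ∃ n e, (∀ w : ZP κ, Near n e z.1 w.1 → pt w none ∈ O ∧
      ∀ m, n ≤ m → pt w (some m) ∈ O) ∧ ∀ d : DP κ, n ≤ d.1.1 → Near n e z.1 d.1.2 → ip d ∈ O) :=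
  Iff.rfl

lemma openY_iff (G : Set (YT κ)) : IsOpen G ↔
    ∀ z, pt' z ∈ G → ∃ n e, (∀ w : ZP κ, Near n e z.1 w.1 → pt' w ∈ G) ∧
    ∀ d : DP κ, Near n e z.1 d.1.2 → ip' d ∈ G := Iff.rfl

/-- the projection -/
def pr : XT κ → YT κ := Sum.map Prod.fst id

@[simp] lemma pr_pt (z : ZP κ) (m : Option ℕ) : pr (pt z m) = pt' z := rfl

@[simp] lemma pr_ip (d : DP κ) : pr (ip d) = ip' d := rfl

lemma caseX (x : XT κ) : (∃ z m, x = pt z m) ∨ ∃ d, x = ip d := by
  rcases x with ⟨z, m⟩ | d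
  · exact Or.inl ⟨z, m, rfl⟩
  · exact Or.inr ⟨d, rfl⟩

lemma caseY (y : YT κ) : (∃ z, y = pt' z) ∨ ∃ d, y = ip' d := by
  rcases y with z | d
  · exact Or.inl ⟨z, rfl⟩
  · exact Or.inr ⟨d, rfl⟩

lemma pt_inj {z z' : ZP κ} {m m' : Option ℕ} (h : pt z m = pt z' m') : z = z' ∧ m = m' := by
  have := Sum.inl_injective h
  exact Prod.mk.inj this

lemma ip_inj {d d' : DP κ} (h : ip d = ip d') : d = d' := Sum.inr_injective h

lemma pt'_inj {z z' : ZP κ} (h : pt' z = pt' z') : z = z' := Sum.inl_injective h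

lemma ip'_inj {d d' : DP κ} (h : ip' d = ip' d') : d = d' := Sum.inr_injective h

lemma pt_ne_ip {z : ZP κ} {m : Option ℕ} {d : DP κ} : pt z m ≠ ip d := Sum.inl_ne_inr

lemma pt'_ne_ip' {z : ZP κ} {d : DP κ} : pt' z ≠ ip' d := Sum.inl_ne_inr

lemma pr_continuous : Continuous (pr : XT κ → YT κ) := by
  rw [continuous_def]
  intro G hG
  rw [openY_iff] at hG
  rw [openX_iff]
  refine ⟨fun z m h => ?_, fun z h => ?_⟩
  · obtain ⟨n, e, h1, h2⟩ := hG z h
    exact ⟨n, e, fun w hw => h1 w hw, fun d _ hw => h2 d hw⟩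
  · obtain ⟨n, e, h1, h2⟩ := hG z h
    exact ⟨n, e, fun w hw => ⟨h1 w hw, fun m _ => h1 w hw⟩, fun d _ hw => h2 d hw⟩

lemma pr_closed : IsClosedMap (pr : XT κ → YT κ) := by
  classical
  intro C hC
  rw [← isOpen_compl_iff] at hC ⊢
  rw [openX_iff] at hC
  rw [openY_iff]
  intro z hz
  have hz' : ∀ m, pt z m ∈ Cᶜ := fun m hm => hz ⟨pt z m, hm, rfl⟩
  obtain ⟨n, e, h1, h2⟩ := hC.2 z (hz' none)
  choose nn ee h3 h4 using fun m => hC.1 z m (hz' (some m))
  refine ⟨n + (Finset.range n).sup nn, e ∪ (Finset.range n).biUnion ee, ?_, ?_⟩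
  · rintro w hw ⟨x, hx, hxw⟩
    rcases caseX x with ⟨z', m, rfl⟩ | ⟨d, rfl⟩
    · rw [pr_pt] at hxw
      obtain rfl := pt'_inj hxw
      have hwn : Near n e z.1 z'.1 := hw.mono (Nat.le_add_right _ _) Finset.subset_union_left
      rcases m with _ | m
      · exact (h1 z' hwn).1 hx
      · by_cases hm : m < n
        · refine h3 m z' (hw.mono ?_ ?_) hx
          · exact (Finset.le_sup (Finset.mem_range.mpr hm)).trans (Nat.le_add_left _ _)
          · refine subset_trans ?_ Finset.subset_union_right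
            exact Finset.subset_biUnion_of_mem ee (Finset.mem_range.mpr hm)
        · exact (h1 z' hwn).2 m (not_lt.mp hm) hx
    · rw [pr_ip] at hxw
      exact pt'_ne_ip' hxw.symm
  · rintro d hw ⟨x, hx, hxw⟩
    rcases caseX x with ⟨z', m, rfl⟩ | ⟨d', rfl⟩
    · rw [pr_pt] at hxw
      exact pt'_ne_ip' hxw
    · rw [pr_ip] at hxw
      obtain rfl := ip'_inj hxw
      by_cases hm : d'.1.1 < n
      · refine h4 d'.1.1 d' rfl (hw.mono ?_ ?_) hx
        · exact (Finset.le_sup (Finset.mem_range.mpr hm)).trans (Nat.le_add_left _ _)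
        · refine subset_trans ?_ Finset.subset_union_right
          exact Finset.subset_biUnion_of_mem ee (Finset.mem_range.mpr hm)
      · exact h2 d' (not_lt.mp hm) (hw.mono (Nat.le_add_right _ _) Finset.subset_union_left) hx

lemma pr_surj : Function.Surjective (pr : XT κ → YT κ) := by
  intro y
  rcases caseY y with ⟨z, rfl⟩ | ⟨d, rfl⟩
  · exact ⟨pt z none, rfl⟩
  · exact ⟨ip d, rfl⟩

lemma pr_fibre_ip (d : DP κ) : (pr : XT κ → YT κ) ⁻¹' {ip' d} = {ip d} := by
  ext x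
  rcases caseX x with ⟨z, m, rfl⟩ | ⟨d', rfl⟩
  · constructor
    · intro h
      exact absurd (show pt' z = ip' d from h) pt'_ne_ip'
    · intro h
      exact absurd (show pt z m = ip d from h) pt_ne_ip
  · constructor
    · intro h
      rw [ip'_inj (show ip' d' = ip' d from h)]
      rfl
    · intro h
      rw [mem_singleton_iff] at h
      rw [h]
      rfl

lemma pr_compact (y : YT κ) : IsCompact ((pr : XT κ → YT κ) ⁻¹' {y}) := by
  classical
  rcases caseY y with ⟨z, rfl⟩ | ⟨d, rfl⟩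
  · apply isCompact_of_finite_subcover
    intro ι U hU hcov
    have hmem : ∀ m, pt z m ∈ pr ⁻¹' {pt' z} := fun m => rfl
    choose i hi using fun m => mem_iUnion.mp (hcov (hmem m))
    obtain ⟨n, e, h1, -⟩ := ((openX_iff _).mp (hU (i none))).2 z (hi none)
    refine ⟨insert (i none) ((Finset.range n).image fun m => i (some m)), ?_⟩
    intro x hx
    rcases caseX x with ⟨z', m, rfl⟩ | ⟨d, rfl⟩
    · obtain rfl := pt'_inj (show pt' z' = pt' z from hx)
      rcases m with _ | m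
      · exact mem_iUnion₂.mpr ⟨i none, Finset.mem_insert_self _ _, hi none⟩
      · by_cases hm : m < n
        · exact mem_iUnion₂.mpr ⟨i (some m), Finset.mem_insert_of_mem
            (Finset.mem_image_of_mem _ (Finset.mem_range.mpr hm)), hi (some m)⟩
        · exact mem_iUnion₂.mpr ⟨i none, Finset.mem_insert_self _ _,
            (h1 z' (Near.refl _ _ _)).2 m (not_lt.mp hm)⟩
    · exact absurd (show ip' d = pt' z from hx) (fun h => pt'_ne_ip' h.symm)
  · rw [pr_fibre_ip]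
    exact isCompact_singleton

lemma pr_perfect : IsPerfect (pr : XT κ → YT κ) := ⟨pr_continuous, pr_closed, pr_surj, pr_compact⟩

lemma pr_countable (y : YT κ) : ((pr : XT κ → YT κ) ⁻¹' {y}).Countable := by
  rcases caseY y with ⟨z, rfl⟩ | ⟨d, rfl⟩
  · refine (countable_range fun m : Option ℕ => pt z m).mono ?_
    intro x hx
    rcases caseX x with ⟨z', m, rfl⟩ | ⟨d, rfl⟩
    · obtain rfl := pt'_inj (show pt' z' = pt' z from hx)
      exact ⟨m, rfl⟩
    · exact absurd (show ip' d = pt' z from hx) (fun h => pt'_ne_ip' h.symm)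
  · rw [pr_fibre_ip]
    exact countable_singleton _

/-- basic open sets at a finite level -/
def B (s : ℕ → Set κ) (m n : ℕ) (e : Finset κ) : Set (XT κ) :=
  {x | (∃ w : ZP κ, Near n e s w.1 ∧ x = pt w (some m)) ∨
    ∃ d : DP κ, d.1.1 = m ∧ Near n e s d.1.2 ∧ x = ip d}

/-- basic open sets at the infinite level -/
def C (s : ℕ → Set κ) (n : ℕ) (e : Finset κ) : Set (XT κ) :=
  {x | (∃ w : ZP κ, Near n e s w.1 ∧ (x = pt w none ∨ ∃ m, n ≤ m ∧ x = pt w (some m))) ∨
    ∃ d : DP κ, n ≤ d.1.1 ∧ Near n e s d.1.2 ∧ x = ip d}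

lemma pt_mem_B {s : ℕ → Set κ} {m n : ℕ} {e : Finset κ} {w : ZP κ} {m' : Option ℕ} :
    pt w m' ∈ B s m n e ↔ m' = some m ∧ Near n e s w.1 := by
  constructor
  · rintro (⟨w', hw, he⟩ | ⟨d, -, -, he⟩)
    · obtain ⟨rfl, h⟩ := pt_inj he
      exact ⟨h, hw⟩
    · exact absurd he pt_ne_ip
  · rintro ⟨rfl, h⟩
    exact Or.inl ⟨w, h, rfl⟩

lemma ip_mem_B {s : ℕ → Set κ} {m n : ℕ} {e : Finset κ} {d : DP κ} :
    ip d ∈ B s m n e ↔ d.1.1 = m ∧ Near n e s d.1.2 := by
  constructor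
  · rintro (⟨w', hw, he⟩ | ⟨d', h1, h2, he⟩)
    · exact absurd he.symm pt_ne_ip
    · obtain rfl := ip_inj he
      exact ⟨h1, h2⟩
  · rintro ⟨h1, h2⟩
    exact Or.inr ⟨d, h1, h2, rfl⟩

lemma none_mem_C {s : ℕ → Set κ} {n : ℕ} {e : Finset κ} {w : ZP κ} :
    pt w none ∈ C s n e ↔ Near n e s w.1 := by
  constructor
  · rintro (⟨w', hw, he | ⟨m, -, he⟩⟩ | ⟨d, -, -, he⟩)
    · obtain ⟨rfl, h⟩ := pt_inj he
      exact hw
    · exact absurd (pt_inj he).2 (by simp)
    · exact absurd he pt_ne_ip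
  · intro h
    exact Or.inl ⟨w, h, Or.inl rfl⟩

lemma some_mem_C {s : ℕ → Set κ} {n : ℕ} {e : Finset κ} {w : ZP κ} {m : ℕ} :
    pt w (some m) ∈ C s n e ↔ n ≤ m ∧ Near n e s w.1 := by
  constructor
  · rintro (⟨w', hw, he | ⟨m', hm, he⟩⟩ | ⟨d, -, -, he⟩)
    · exact absurd (pt_inj he).2 (by simp)
    · obtain ⟨rfl, h⟩ := pt_inj he
      obtain rfl := Option.some_injective _ h
      exact ⟨hm, hw⟩
    · exact absurd he pt_ne_ip
  · rintro ⟨h, h'⟩
    exact Or.inl ⟨w, h', Or.inr ⟨m, h, rfl⟩⟩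

lemma ip_mem_C {s : ℕ → Set κ} {n : ℕ} {e : Finset κ} {d : DP κ} :
    ip d ∈ C s n e ↔ n ≤ d.1.1 ∧ Near n e s d.1.2 := by
  constructor
  · rintro (⟨w', hw, he | ⟨m', hm, he⟩⟩ | ⟨d', h1, h2, he⟩)
    · exact absurd he.symm pt_ne_ip
    · exact absurd he.symm pt_ne_ip
    · obtain rfl := ip_inj he
      exact ⟨h1, h2⟩
  · rintro ⟨h1, h2⟩
    exact Or.inr ⟨d, h1, h2, rfl⟩

lemma B_open (s : ℕ → Set κ) (m n : ℕ) (e : Finset κ) : IsOpen (B s m n e) := by
  rw [openX_iff]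
  refine ⟨fun z j hz => ?_, fun z hz => ?_⟩
  · rw [pt_mem_B] at hz
    obtain ⟨hj, hz⟩ := hz
    obtain rfl := Option.some_injective _ hj
    exact ⟨n, e, fun w hw => pt_mem_B.mpr ⟨rfl, hz.trans hw⟩,
      fun d hd hw => ip_mem_B.mpr ⟨hd, hz.trans hw⟩⟩
  · rw [pt_mem_B] at hz
    exact absurd hz.1 (by simp)

lemma C_open (s : ℕ → Set κ) (n : ℕ) (e : Finset κ) : IsOpen (C s n e) := by
  rw [openX_iff]
  refine ⟨fun z j hz => ?_, fun z hz => ?_⟩
  · rw [some_mem_C] at hz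
    exact ⟨n, e, fun w hw => some_mem_C.mpr ⟨hz.1, hz.2.trans hw⟩,
      fun d hd hw => ip_mem_C.mpr ⟨hz.1.trans_eq hd.symm, hz.2.trans hw⟩⟩
  · rw [none_mem_C] at hz
    exact ⟨n, e, fun w hw => ⟨none_mem_C.mpr (hz.trans hw), fun m hm =>
      some_mem_C.mpr ⟨hm, hz.trans hw⟩⟩, fun d hd hw => ip_mem_C.mpr ⟨hd, hz.trans hw⟩⟩

lemma B_clopen (s : ℕ → Set κ) (m n : ℕ) (e : Finset κ) : IsClopen (B s m n e) := by
  refine ⟨?_, B_open s m n e⟩
  rw [← isOpen_compl_iff, openX_iff]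
  refine ⟨fun z j hz => ?_, fun z hz => ?_⟩
  · rw [mem_compl_iff, pt_mem_B] at hz
    push Not at hz
    by_cases hj : j = m
    · subst hj
      obtain ⟨e', he'⟩ := not_near (hz rfl)
      refine ⟨n, e', fun w hw => ?_, fun d hd hw => ?_⟩
      · rw [mem_compl_iff, pt_mem_B]
        exact fun h => he' _ hw h.2
      · rw [mem_compl_iff, ip_mem_B]
        exact fun h => he' _ hw h.2
    · refine ⟨0, ∅, fun w hw => ?_, fun d hd hw => ?_⟩
      · rw [mem_compl_iff, pt_mem_B]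
        exact fun h => hj (Option.some_injective _ h.1)
      · rw [mem_compl_iff, ip_mem_B]
        exact fun h => hj (hd.symm.trans h.1)
  · refine ⟨m + 1, ∅, fun w hw => ⟨?_, fun j hj => ?_⟩, fun d hd hw => ?_⟩
    · rw [mem_compl_iff, pt_mem_B]
      exact fun h => absurd h.1 (by simp)
    · rw [mem_compl_iff, pt_mem_B]
      intro h
      have := Option.some_injective _ h.1
      omega
    · rw [mem_compl_iff, ip_mem_B]
      intro h
      have := h.1
      omega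

lemma C_clopen (s : ℕ → Set κ) (n : ℕ) (e : Finset κ) : IsClopen (C s n e) := by
  refine ⟨?_, C_open s n e⟩
  rw [← isOpen_compl_iff, openX_iff]
  refine ⟨fun z j hz => ?_, fun z hz => ?_⟩
  · rw [mem_compl_iff, some_mem_C] at hz
    push Not at hz
    by_cases hj : n ≤ j
    · obtain ⟨e', he'⟩ := not_near (hz hj)
      refine ⟨n, e', fun w hw => ?_, fun d hd hw => ?_⟩
      · rw [mem_compl_iff, some_mem_C]
        exact fun h => he' _ hw h.2
      · rw [mem_compl_iff, ip_mem_C]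
        exact fun h => he' _ hw h.2
    · refine ⟨0, ∅, fun w hw => ?_, fun d hd hw => ?_⟩
      · rw [mem_compl_iff, some_mem_C]
        exact fun h => hj h.1
      · rw [mem_compl_iff, ip_mem_C]
        exact fun h => hj (h.1.trans_eq hd)
  · rw [mem_compl_iff, none_mem_C] at hz
    obtain ⟨e', he'⟩ := not_near hz
    refine ⟨n, e', fun w hw => ⟨?_, fun j hj => ?_⟩, fun d hd hw => ?_⟩
    · rw [mem_compl_iff, none_mem_C]
      exact he' _ hw
    · rw [mem_compl_iff, some_mem_C]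
      exact fun h => he' _ hw h.2
    · rw [mem_compl_iff, ip_mem_C]
      exact fun h => he' _ hw h.2

/-- An isolated point is far from the points of `ZP`. -/
lemma far (d : DP κ) (z : ZP κ) : ∃ e, ¬ Near (d.1.1 + 1) e z.1 d.1.2 := by
  have : ¬ d.1.2 d.1.1 ⊆ z.1 d.1.1 := fun h => d.2.1 ((z.2.1 _).anti h)
  obtain ⟨u, hu, hu'⟩ := not_subset.mp this
  exact ⟨{u}, fun h => hu' ((h d.1.1 (Nat.lt_succ_self _)).2 u (Finset.mem_singleton_self _) hu)⟩

lemma single_clopen (d : DP κ) : IsClopen ({ip d} : Set (XT κ)) := by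
  refine ⟨?_, ?_⟩
  · rw [← isOpen_compl_iff, openX_iff]
    refine ⟨fun z j hz => ?_, fun z hz => ?_⟩
    · obtain ⟨e, he⟩ := far d z
      refine ⟨d.1.1 + 1, e, fun w hw h => pt_ne_ip h, fun d' hd hw h => ?_⟩
      rw [ip_inj h] at hw
      exact he hw
    · obtain ⟨e, he⟩ := far d z
      refine ⟨d.1.1 + 1, e, fun w hw => ⟨fun h => pt_ne_ip h, fun m hm h => pt_ne_ip h⟩,
        fun d' hd hw h => ?_⟩
      rw [ip_inj h] at hw
      exact he hw
  · rw [openX_iff]
    exact ⟨fun z j hz => absurd (mem_singleton_iff.mp hz) pt_ne_ip,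
      fun z hz => absurd (mem_singleton_iff.mp hz) pt_ne_ip⟩

theorem X_basis : TopologicalSpace.IsTopologicalBasis {s : Set (XT κ) | IsClopen s} := by
  apply TopologicalSpace.isTopologicalBasis_of_isOpen_of_nhds
  · exact fun u hu => hu.2
  · intro x O hx hO
    rcases caseX x with ⟨z, m, rfl⟩ | ⟨d, rfl⟩
    · rcases m with _ | m
      · obtain ⟨n, e, h1, h2⟩ := ((openX_iff _).mp hO).2 z hx
        refine ⟨C z.1 n e, C_clopen _ _ _, none_mem_C.mpr (Near.refl _ _ _), ?_⟩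
        rintro _ (⟨w', hw, rfl | ⟨m', hm, rfl⟩⟩ | ⟨d', h3, h4, rfl⟩)
        · exact (h1 _ hw).1
        · exact (h1 _ hw).2 _ hm
        · exact h2 _ h3 h4
      · obtain ⟨n, e, h1, h2⟩ := ((openX_iff _).mp hO).1 z m hx
        refine ⟨B z.1 m n e, B_clopen _ _ _ _, pt_mem_B.mpr ⟨rfl, Near.refl _ _ _⟩, ?_⟩
        rintro _ (⟨w', hw, rfl⟩ | ⟨d', h3, h4, rfl⟩)
        · exact h1 _ hw
        · exact h2 _ h3 h4
    · exact ⟨{ip d}, single_clopen d, rfl, singleton_subset_iff.mpr hx⟩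

/-- Different points of `ZP` are not near each other. -/
lemma exists_not_near {z w : ZP κ} (h : z ≠ w) : ∃ n e, ¬ Near n e z.1 w.1 := by
  by_contra hcon
  push Not at hcon
  apply h
  apply Subtype.ext
  funext i
  apply subset_antisymm
  · exact (hcon (i + 1) ∅ i (Nat.lt_succ_self i)).1
  · intro u hu
    exact (hcon (i + 1) {u} i (Nat.lt_succ_self i)).2 u (Finset.mem_singleton_self _) hu

lemma t2_of_clopen {T : Type u} [TopologicalSpace T]
    (h : ∀ x y : T, x ≠ y → ∃ A : Set T, IsClopen A ∧ ((x ∈ A ∧ y ∉ A) ∨ (y ∈ A ∧ x ∉ A))) :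
    T2Space T := by
  refine ⟨fun x y hxy => ?_⟩
  obtain ⟨A, hA, ⟨h1, h2⟩ | ⟨h1, h2⟩⟩ := h x y hxy
  · exact ⟨A, Aᶜ, hA.2, hA.compl.2, h1, h2, disjoint_compl_right⟩
  · exact ⟨Aᶜ, A, hA.compl.2, hA.2, h2, h1, disjoint_compl_left⟩

theorem X_t2 : T2Space (XT κ) := by
  apply t2_of_clopen
  intro x y hxy
  rcases caseX x with ⟨z, m, rfl⟩ | ⟨d, rfl⟩
  · rcases caseX y with ⟨z', m', rfl⟩ | ⟨d, rfl⟩
    · by_cases hm : m = m'
      · subst hm
        have hz : z ≠ z' := fun h => hxy (by rw [h])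
        obtain ⟨n, e, hne⟩ := exists_not_near hz
        rcases m with _ | m
        · exact ⟨C z.1 n e, C_clopen _ _ _, Or.inl ⟨none_mem_C.mpr (Near.refl _ _ _),
            fun h => hne (none_mem_C.mp h)⟩⟩
        · exact ⟨B z.1 m n e, B_clopen _ _ _ _, Or.inl ⟨pt_mem_B.mpr ⟨rfl, Near.refl _ _ _⟩,
            fun h => hne (pt_mem_B.mp h).2⟩⟩
      · rcases m with _ | m
        · rcases m' with _ | m'
          · exact absurd rfl hm
          · exact ⟨B z'.1 m' 0 ∅, B_clopen _ _ _ _, Or.inr ⟨pt_mem_B.mpr ⟨rfl, Near.refl _ _ _⟩,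
              fun h => hm (pt_mem_B.mp h).1⟩⟩
        · exact ⟨B z.1 m 0 ∅, B_clopen _ _ _ _, Or.inl ⟨pt_mem_B.mpr ⟨rfl, Near.refl _ _ _⟩,
              fun h => hm (pt_mem_B.mp h).1.symm⟩⟩
    · exact ⟨{ip d}, single_clopen d, Or.inr ⟨rfl, fun h => pt_ne_ip h⟩⟩
  · refine ⟨{ip d}, single_clopen d, Or.inl ⟨rfl, fun h => hxy ?_⟩⟩
    exact (mem_singleton_iff.mp h).symm

/-- basic open sets downstairs -/
def BY (s : ℕ → Set κ) (n : ℕ) (e : Finset κ) : Set (YT κ) :=
  {y | (∃ w : ZP κ, Near n e s w.1 ∧ y = pt' w) ∨ ∃ d : DP κ, Near n e s d.1.2 ∧ y = ip' d}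

lemma pt'_mem_BY {s : ℕ → Set κ} {n : ℕ} {e : Finset κ} {w : ZP κ} :
    pt' w ∈ BY s n e ↔ Near n e s w.1 := by
  constructor
  · rintro (⟨w', hw, he⟩ | ⟨d, -, he⟩)
    · obtain rfl := pt'_inj he
      exact hw
    · exact absurd he pt'_ne_ip'
  · intro h
    exact Or.inl ⟨w, h, rfl⟩

lemma ip'_mem_BY {s : ℕ → Set κ} {n : ℕ} {e : Finset κ} {d : DP κ} :
    ip' d ∈ BY s n e ↔ Near n e s d.1.2 := by
  constructor
  · rintro (⟨w', hw, he⟩ | ⟨d', h2, he⟩)
    · exact absurd he.symm pt'_ne_ip'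
    · obtain rfl := ip'_inj he
      exact h2
  · intro h
    exact Or.inr ⟨d, h, rfl⟩

lemma BY_clopen (s : ℕ → Set κ) (n : ℕ) (e : Finset κ) : IsClopen (BY s n e) := by
  refine ⟨?_, ?_⟩
  · rw [← isOpen_compl_iff, openY_iff]
    intro z hz
    rw [mem_compl_iff, pt'_mem_BY] at hz
    obtain ⟨e', he'⟩ := not_near hz
    refine ⟨n, e', fun w hw => ?_, fun d hw => ?_⟩
    · rw [mem_compl_iff, pt'_mem_BY]
      exact he' _ hw
    · rw [mem_compl_iff, ip'_mem_BY]
      exact he' _ hw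
  · rw [openY_iff]
    intro z hz
    rw [pt'_mem_BY] at hz
    exact ⟨n, e, fun w hw => pt'_mem_BY.mpr (hz.trans hw), fun d hw => ip'_mem_BY.mpr (hz.trans hw)⟩

lemma single'_clopen (d : DP κ) : IsClopen ({ip' d} : Set (YT κ)) := by
  refine ⟨?_, ?_⟩
  · rw [← isOpen_compl_iff, openY_iff]
    intro z hz
    obtain ⟨e, he⟩ := far d z
    refine ⟨d.1.1 + 1, e, fun w hw h => pt'_ne_ip' h, fun d' hw h => ?_⟩
    rw [ip'_inj h] at hw
    exact he hw
  · rw [openY_iff]
    exact fun z hz => absurd (mem_singleton_iff.mp hz) pt'_ne_ip'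

theorem Y_basis : TopologicalSpace.IsTopologicalBasis {s : Set (YT κ) | IsClopen s} := by
  apply TopologicalSpace.isTopologicalBasis_of_isOpen_of_nhds
  · exact fun u hu => hu.2
  · intro x O hx hO
    rcases caseY x with ⟨z, rfl⟩ | ⟨d, rfl⟩
    · obtain ⟨n, e, h1, h2⟩ := (openY_iff _).mp hO z hx
      refine ⟨BY z.1 n e, BY_clopen _ _ _, pt'_mem_BY.mpr (Near.refl _ _ _), ?_⟩
      rintro _ (⟨w', hw, rfl⟩ | ⟨d', h4, rfl⟩)
      · exact h1 _ hw
      · exact h2 _ h4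
    · exact ⟨{ip' d}, single'_clopen d, rfl, singleton_subset_iff.mpr hx⟩

theorem Y_t2 : T2Space (YT κ) := by
  apply t2_of_clopen
  intro x y hxy
  rcases caseY x with ⟨z, rfl⟩ | ⟨d, rfl⟩
  · rcases caseY y with ⟨z', rfl⟩ | ⟨d, rfl⟩
    · have hz : z ≠ z' := fun h => hxy (by rw [h])
      obtain ⟨n, e, hne⟩ := exists_not_near hz
      exact ⟨BY z.1 n e, BY_clopen _ _ _, Or.inl ⟨pt'_mem_BY.mpr (Near.refl _ _ _),
            fun h => hne (pt'_mem_BY.mp h)⟩⟩
    · exact ⟨{ip' d}, single'_clopen d, Or.inr ⟨rfl, fun h => pt'_ne_ip' h⟩⟩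
  · refine ⟨{ip' d}, single'_clopen d, Or.inl ⟨rfl, fun h => hxy ?_⟩⟩
    exact (mem_singleton_iff.mp h).symm

/-- the sequence restricted to the positions in `J` -/
def restr (J : Finset ℕ) (w : ℕ → Set κ) : ℕ → Set κ := fun i => {u | i ∈ J ∧ u ∈ w i}

/-- all restrictions to finite sets of positions -/
def Rs (w : ℕ → Set κ) : Set (ℕ → Set κ) := range fun J => restr J w

lemma Rs_countable (w : ℕ → Set κ) : (Rs w).Countable := countable_range _

lemma mem_Rs {s w : ℕ → Set κ} {n : ℕ} (h0 : ∀ i, n ≤ i → s i = ∅) (h1 : ∀ i < n, s i ⊆ w i)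
    (h2 : ∀ i < n, (s i).Nonempty → (w i).Subsingleton) : s ∈ Rs w := by
  classical
  refine ⟨(Finset.range n).filter (fun i => (s i).Nonempty), ?_⟩
  funext i
  ext u
  simp only [restr, mem_ofPred_eq, Finset.mem_filter, Finset.mem_range]
  constructor
  · rintro ⟨⟨hi, v, hv⟩, hu⟩
    rw [h2 i hi ⟨v, hv⟩ hu (h1 i hi hv)]
    exact hv
  · intro hu
    have hi : i < n := by
      by_contra hcon
      rw [h0 i (not_lt.mp hcon)] at hu
      exact hu
    exact ⟨⟨hi, u, hu⟩, h1 i hi hu⟩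

/-- cut a sequence at `n` -/
def tr (n : ℕ) (z : ℕ → Set κ) : ℕ → Set κ := fun i => {u | i < n ∧ u ∈ z i}

/-- cut a sequence at `n` and delete position `m` -/
def tre (m n : ℕ) (z : ℕ → Set κ) : ℕ → Set κ := fun i => {u | i ≠ m ∧ i < n ∧ u ∈ z i}

lemma tr_eq {n i : ℕ} (z : ℕ → Set κ) (h : i < n) : tr n z i = z i := by
  ext u
  simp [tr, h]

lemma tr_empty {n i : ℕ} (z : ℕ → Set κ) (h : n ≤ i) : tr n z i = ∅ := by
  ext u
  simp [tr, not_lt.mpr h]

lemma near_tr {n : ℕ} {e : Finset κ} {z w : ℕ → Set κ} : Near n e (tr n z) w ↔ Near n e z w := by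
  constructor
  · intro h i hi
    have := h i hi
    rwa [tr_eq z hi] at this
  · intro h i hi
    rw [tr_eq z hi]
    exact h i hi

lemma B_tr (z : ℕ → Set κ) (m n : ℕ) (e : Finset κ) : B (tr n z) m n e = B z m n e := by
  unfold B
  simp only [near_tr]

lemma C_tr (z : ℕ → Set κ) (n : ℕ) (e : Finset κ) : C (tr n z) n e = C z n e := by
  unfold C
  simp only [near_tr]

/-- deleting position `m` -/
def er (m : ℕ) (z : ZP κ) : ZP κ := ⟨fun i => {u | i ≠ m ∧ u ∈ z.1 i},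
  fun i => (z.2.1 i).anti fun _ h => h.2, by
    refine (z.2.2.sdiff (finite_singleton m)).mono ?_
    rintro i ⟨⟨u, hu⟩, hi⟩
    exact ⟨u, hi, hu⟩⟩

theorem X_metalindelof : Metalindelof (XT κ) := by
  classical
  intro 𝒪 h𝒪
  let okB : ℕ → ℕ → (ℕ → Set κ) → Prop := fun m n s => ∃ e, ∃ O ∈ 𝒪, B s m n e ⊆ O
  let okC : ℕ → (ℕ → Set κ) → Prop := fun n s => ∃ e, ∃ O ∈ 𝒪, C s n e ⊆ O
  let eB : ℕ → ℕ → (ℕ → Set κ) → Finset κ := fun m n s => if h : okB m n s then h.choose else ∅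
  let eC : ℕ → (ℕ → Set κ) → Finset κ := fun n s => if h : okC n s then h.choose else ∅
  have heB : ∀ m n s, okB m n s → ∃ O ∈ 𝒪, B s m n (eB m n s) ⊆ O := by
    intro m n s h
    simp only [eB, dif_pos h]
    exact h.choose_spec
  have heC : ∀ n s, okC n s → ∃ O ∈ 𝒪, C s n (eC n s) ⊆ O := by
    intro n s h
    simp only [eC, dif_pos h]
    exact h.choose_spec
  let 𝒱1 : Set (Set (XT κ)) := {V | ∃ m n s, s m = ∅ ∧ (∀ i, n ≤ i → s i = ∅) ∧ okB m n s ∧
    V = B s m n (eB m n s)}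
  let 𝒱2 : Set (Set (XT κ)) := {V | ∃ m n s ν, s m = {ν} ∧ (∀ i, n ≤ i → s i = ∅) ∧ okB m n s ∧
    (∃ n' ≤ n, ν ∈ eB m n' (tre m n' s)) ∧ V = B s m n (eB m n s)}
  let 𝒱3 : Set (Set (XT κ)) := {V | ∃ n s, (∀ i, n ≤ i → s i = ∅) ∧ okC n s ∧ V = C s n (eC n s)}
  let 𝒱4 : Set (Set (XT κ)) := {V | ∃ d, V = {ip d}}
  refine ⟨𝒱1 ∪ 𝒱2 ∪ 𝒱3 ∪ 𝒱4, ⟨?_, ?_⟩, ?_, ?_⟩
  · rintro V (((⟨m, n, s, -, -, -, rfl⟩ | ⟨m, n, s, ν, -, -, -, -, rfl⟩) | ⟨n, s, -, -, rfl⟩) | ⟨d, rfl⟩)
    · exact B_open _ _ _ _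
    · exact B_open _ _ _ _
    · exact C_open _ _ _
    · exact (single_clopen d).2
  · intro x
    rcases caseX x with ⟨z, m, rfl⟩ | ⟨d, rfl⟩
    · rcases m with _ | m
      · obtain ⟨O, hO, hz⟩ := h𝒪.2 (pt z none)
        obtain ⟨n, e, h1, h2⟩ := ((openX_iff _).mp (h𝒪.1 O hO)).2 z hz
        have hok : okC n (tr n z.1) := by
          refine ⟨e, O, hO, ?_⟩
          rw [C_tr]
          rintro _ (⟨w', hw, rfl | ⟨m', hm, rfl⟩⟩ | ⟨d', h3, h4, rfl⟩)
          · exact (h1 _ hw).1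
          · exact (h1 _ hw).2 _ hm
          · exact h2 _ h3 h4
        refine ⟨C (tr n z.1) n (eC n (tr n z.1)), Or.inl (Or.inr ⟨n, tr n z.1, fun i hi =>
          tr_empty _ hi, hok, rfl⟩), ?_⟩
        rw [none_mem_C, near_tr]
        exact Near.refl _ _ _
      · -- first the point with position `m` deleted
        obtain ⟨O, hO, hz⟩ := h𝒪.2 (pt (er m z) (some m))
        obtain ⟨n, e, h1, h2⟩ := ((openX_iff _).mp (h𝒪.1 O hO)).1 _ m hz
        have htre : tr n (er m z).1 = tre m n z.1 := by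
          funext i
          ext u
          simp only [tr, er, tre, mem_ofPred_eq]
          tauto
        have hok : okB m n (tre m n z.1) := by
          refine ⟨e, O, hO, ?_⟩
          rw [← htre, B_tr]
          rintro _ (⟨w', hw, rfl⟩ | ⟨d', h3, h4, rfl⟩)
          · exact h1 _ hw
          · exact h2 _ h3 h4
        by_cases hint : ∃ ν ∈ z.1 m, ν ∈ eB m n (tre m n z.1)
        · obtain ⟨ν, hν, hνe⟩ := hint
          obtain ⟨O', hO', hz'⟩ := h𝒪.2 (pt z (some m))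
          obtain ⟨n1, e1, h3, h4⟩ := ((openX_iff _).mp (h𝒪.1 O' hO')).1 _ m hz'
          set n2 := n1 + n + m + 1 with hn2
          have hok2 : okB m n2 (tr n2 z.1) := by
            refine ⟨e1, O', hO', ?_⟩
            rw [B_tr]
            rintro _ (⟨w', hw, rfl⟩ | ⟨d', h5, h6, rfl⟩)
            · exact h3 _ (hw.mono (by omega) subset_rfl)
            · exact h4 _ h5 (h6.mono (by omega) subset_rfl)
          refine ⟨B (tr n2 z.1) m n2 (eB m n2 (tr n2 z.1)), Or.inl (Or.inl (Or.inr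
            ⟨m, n2, tr n2 z.1, ν, ?_, fun i hi => tr_empty _ hi, hok2, ⟨n, by omega, ?_⟩, rfl⟩)), ?_⟩
          · rw [tr_eq _ (by omega)]
            exact (z.2.1 m).eq_singleton_of_mem hν
          · have : tre m n (tr n2 z.1) = tre m n z.1 := by
              funext i
              ext u
              simp only [tr, tre, mem_ofPred_eq]
              constructor
              · rintro ⟨h5, h6, h7, h8⟩
                exact ⟨h5, h6, h8⟩
              · rintro ⟨h5, h6, h8⟩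
                exact ⟨h5, h6, by omega, h8⟩
            rw [this]
            exact hνe
          · rw [pt_mem_B, near_tr]
            exact ⟨rfl, Near.refl _ _ _⟩
        · push Not at hint
          refine ⟨B (tre m n z.1) m n (eB m n (tre m n z.1)), Or.inl (Or.inl (Or.inl
            ⟨m, n, tre m n z.1, ?_, fun i hi => ?_, hok, rfl⟩)), ?_⟩
          · ext u
            simp [tre]
          · ext u
            simp [tre, not_lt.mpr hi]
          · rw [pt_mem_B]
            refine ⟨rfl, fun i hi => ⟨fun u hu => hu.2.2, fun u hu huz => ?_⟩⟩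
            refine ⟨fun him => ?_, hi, huz⟩
            subst him
            exact hint u huz hu
    · exact ⟨{ip d}, Or.inr ⟨d, rfl⟩, rfl⟩
  · rintro V (((⟨m, n, s, -, -, h, rfl⟩ | ⟨m, n, s, ν, -, -, h, -, rfl⟩) | ⟨n, s, -, h, rfl⟩) | ⟨d, rfl⟩)
    · exact heB _ _ _ h
    · exact heB _ _ _ h
    · exact heC _ _ h
    · obtain ⟨O, hO, hd⟩ := h𝒪.2 (ip d)
      exact ⟨O, hO, singleton_subset_iff.mpr hd⟩
  · intro x
    rcases caseX x with ⟨z, m', rfl⟩ | ⟨d, rfl⟩
    · have hc : ((fun q : (ℕ → Set κ) × ℕ × ℕ => B q.1 q.2.1 q.2.2 (eB q.2.1 q.2.2 q.1)) ''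
          (Rs z.1 ×ˢ univ) ∪ (fun q : (ℕ → Set κ) × ℕ => C q.1 q.2 (eC q.2 q.1)) ''
          (Rs z.1 ×ˢ univ)).Countable :=
        (((Rs_countable z.1).prod countable_univ).image _).union
          (((Rs_countable z.1).prod countable_univ).image _)
      refine hc.mono ?_
      rintro V ⟨(((⟨m, n, s, -, h0, -, rfl⟩ | ⟨m, n, s, ν, -, h0, -, -, rfl⟩) | ⟨n, s, h0, -, rfl⟩) |
        ⟨d, rfl⟩), hx⟩
      · rw [pt_mem_B] at hx
        exact Or.inl ⟨(s, m, n), ⟨mem_Rs h0 (fun i hi => (hx.2 i hi).1) (fun i _ _ => z.2.1 i),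
          mem_univ _⟩, rfl⟩
      · rw [pt_mem_B] at hx
        exact Or.inl ⟨(s, m, n), ⟨mem_Rs h0 (fun i hi => (hx.2 i hi).1) (fun i _ _ => z.2.1 i),
          mem_univ _⟩, rfl⟩
      · have hx' : Near n (eC n s) s z.1 := by
          rcases m' with _ | m'
          · exact none_mem_C.mp hx
          · exact (some_mem_C.mp hx).2
        exact Or.inr ⟨(s, n), ⟨mem_Rs h0 (fun i hi => (hx' i hi).1) (fun i _ _ => z.2.1 i),
          mem_univ _⟩, rfl⟩
      · exact absurd (mem_singleton_iff.mp hx) pt_ne_ip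
    · set j := d.1.1 with hj
      have hsub : ∀ i, i ≠ j → (d.1.2 i).Subsingleton := d.2.2
      have hν : (⋃ n : ℕ, ⋃ t ∈ Rs d.1.2, (eB j n t : Set κ)).Countable :=
        countable_iUnion fun n => (Rs_countable d.1.2).biUnion fun t _ => (eB j n t).countable_toSet
      have hc : ((fun q : (ℕ → Set κ) × ℕ × ℕ => B q.1 q.2.1 q.2.2 (eB q.2.1 q.2.2 q.1)) ''
          (Rs d.1.2 ×ˢ univ) ∪
          (fun q : (ℕ → Set κ) × κ × ℕ => B (fun i => {u | (i = j ∧ u = q.2.1) ∨ u ∈ q.1 i}) j q.2.2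
            (eB j q.2.2 (fun i => {u | (i = j ∧ u = q.2.1) ∨ u ∈ q.1 i}))) ''
          (Rs d.1.2 ×ˢ ((⋃ n : ℕ, ⋃ t ∈ Rs d.1.2, (eB j n t : Set κ)) ×ˢ univ)) ∪
          (fun q : (ℕ → Set κ) × ℕ => C q.1 q.2 (eC q.2 q.1)) '' (Rs d.1.2 ×ˢ univ) ∪
          {{ip d}}).Countable :=
        (((((Rs_countable d.1.2).prod countable_univ).image _).union
          (((Rs_countable d.1.2).prod (hν.prod countable_univ)).image _)).union
          (((Rs_countable d.1.2).prod countable_univ).image _)).union (countable_singleton _)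
      refine hc.mono ?_
      rintro V ⟨(((⟨m, n, s, hm, h0, -, rfl⟩ | ⟨m, n, s, ν, hm, h0, -, ⟨n', hn', hν'⟩, rfl⟩) |
        ⟨n, s, h0, -, rfl⟩) | ⟨d', rfl⟩), hx⟩
      · rw [ip_mem_B] at hx
        refine Or.inl (Or.inl (Or.inl ⟨(s, m, n), ⟨mem_Rs h0 (fun i hi => (hx.2 i hi).1)
          (fun i _ hne => hsub i fun hij => ?_), mem_univ _⟩, rfl⟩))
        have h3 : (s i).Nonempty := hne
        rw [hij, show j = m from hx.1, hm] at h3
        exact h3.ne_empty rfl
      · rw [ip_mem_B] at hx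
        obtain ⟨hjm, hx⟩ := hx
        obtain rfl : j = m := hjm
        have h1 : ∀ k ≤ n, tre j k s ∈ Rs d.1.2 := by
          intro k hk
          refine mem_Rs (n := n) (fun i hi => ?_) (fun i hi u hu => (hx i hi).1 hu.2.2)
            (fun i _ hne => hsub i ?_)
          · ext u
            simp only [tre, mem_ofPred_eq, mem_empty_iff_false, iff_false]
            rintro ⟨-, h3, -⟩
            omega
          · obtain ⟨u, hu⟩ := hne
            exact hu.1
        have h2 : s = fun i => {u | (i = j ∧ u = ν) ∨ u ∈ tre j n s i} := by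
          funext i
          ext u
          simp only [tre, mem_ofPred_eq]
          constructor
          · intro hu
            by_cases hi : i = j
            · left
              rw [hi, hm] at hu
              exact ⟨hi, hu⟩
            · right
              refine ⟨hi, ?_, hu⟩
              by_contra hcon
              rw [h0 i (not_lt.mp hcon)] at hu
              exact hu
          · rintro (⟨hi, hu⟩ | ⟨-, -, hu⟩)
            · rw [hi, hu, hm]
              rfl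
            · exact hu
        refine Or.inl (Or.inl (Or.inr ⟨(tre j n s, ν, n), ⟨h1 n le_rfl, ?_, mem_univ _⟩, ?_⟩))
        · exact mem_iUnion.mpr ⟨n', mem_iUnion₂.mpr ⟨tre j n' s, h1 n' hn', hν'⟩⟩
        · simp only
          rw [← h2]
      · rw [ip_mem_C] at hx
        refine Or.inl (Or.inr ⟨(s, n), ⟨mem_Rs h0 (fun i hi => (hx.2 i hi).1)
          (fun i hi _ => hsub i ?_), mem_univ _⟩, rfl⟩)
        have := hx.1
        omega
      · right
        rw [ip_inj (mem_singleton_iff.mp hx)]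
        exact rfl

/-- the clopen set of all points with the label `(k, ν)` -/
def Lab (l : ℕ × κ) : Set (YT κ) := {y | (∃ z : ZP κ, l.2 ∈ z.1 l.1 ∧ y = pt' z) ∨
  ∃ d : DP κ, l.2 ∈ d.1.2 l.1 ∧ y = ip' d}

lemma pt'_mem_Lab {l : ℕ × κ} {z : ZP κ} : pt' z ∈ Lab l ↔ l.2 ∈ z.1 l.1 := by
  constructor
  · rintro (⟨w', hw, he⟩ | ⟨d, -, he⟩)
    · obtain rfl := pt'_inj he
      exact hw
    · exact absurd he pt'_ne_ip'
  · intro h
    exact Or.inl ⟨z, h, rfl⟩

lemma ip'_mem_Lab {l : ℕ × κ} {d : DP κ} : ip' d ∈ Lab l ↔ l.2 ∈ d.1.2 l.1 := by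
  constructor
  · rintro (⟨w', hw, he⟩ | ⟨d', hw, he⟩)
    · exact absurd he.symm pt'_ne_ip'
    · obtain rfl := ip'_inj he
      exact hw
  · intro h
    exact Or.inr ⟨d, h, rfl⟩

lemma Lab_open (l : ℕ × κ) : IsOpen (Lab l) := by
  rw [openY_iff]
  intro z hz
  rw [pt'_mem_Lab] at hz
  refine ⟨l.1 + 1, ∅, fun w hw => ?_, fun d hw => ?_⟩
  · rw [pt'_mem_Lab]
    exact (hw l.1 (Nat.lt_succ_self _)).1 hz
  · rw [ip'_mem_Lab]
    exact (hw l.1 (Nat.lt_succ_self _)).1 hz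

lemma Lab_cover (y : YT κ) : ∃ l, y ∈ Lab l := by
  rcases caseY y with ⟨z, rfl⟩ | ⟨d, rfl⟩
  · obtain ⟨k, ν, hν⟩ := z.2.2.nonempty
    exact ⟨(k, ν), pt'_mem_Lab.mpr hν⟩
  · have : (d.1.2 d.1.1).Nonempty := by
      by_contra hcon
      rw [not_nonempty_iff_eq_empty] at hcon
      apply d.2.1
      rw [hcon]
      exact subsingleton_empty
    obtain ⟨ν, hν⟩ := this
    exact ⟨(d.1.1, ν), ip'_mem_Lab.mpr hν⟩

/-- The cover of `YT κ` by the label sets has no point-countable open refinement. -/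
theorem Y_bad (hfree : FreeSubset κ) (𝒲 : Set (Set (YT κ))) (hW : IsOpenCover 𝒲)
    (hWr : ∀ W ∈ 𝒲, ∃ l, W ⊆ Lab l) : ¬ PointCountable 𝒲 := by
  classical
  intro hWp
  have hne : Nonempty κ := by
    obtain ⟨a, -, -⟩ := hfree (fun _ => ∅) (fun _ => countable_empty)
    exact ⟨a 0⟩
  choose! lab hlab using hWr
  let F1 : ℕ → Finset (ℕ × κ) → Set κ := fun k s =>
    {ν | (∃ w : ℕ → Set κ, (∀ i, (w i).Subsingleton) ∧ ∀ l ∈ s, l.1 ≠ k ∧ l.2 ∈ w l.1) ∧
      ∃ W ∈ 𝒲, lab W = (k, ν) ∧ ∃ p : Finset κ, ν ∉ p ∧ ∀ d : DP κ, d.1.1 = k →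
        (∀ l ∈ s, l.2 ∈ d.1.2 l.1) → ν ∈ d.1.2 k → (∀ u ∈ p, u ∉ d.1.2 k) → ip' d ∈ W}
  have hF1 : ∀ k s, (F1 k s).Countable := by
    intro k s
    by_contra hunc
    have hne : (F1 k s).Nonempty := by
      by_contra hcon
      rw [not_nonempty_iff_eq_empty] at hcon
      rw [hcon] at hunc
      exact hunc countable_empty
    obtain ⟨⟨w, hw1, hw2⟩, -⟩ := hne.choose_spec
    have hch : ∀ ν : κ, ∃ q : Set (YT κ) × Finset κ, ν ∈ F1 k s → (q.1 ∈ 𝒲 ∧ lab q.1 = (k, ν) ∧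
        ν ∉ q.2 ∧ ∀ d : DP κ, d.1.1 = k → (∀ l ∈ s, l.2 ∈ d.1.2 l.1) → ν ∈ d.1.2 k →
        (∀ u ∈ q.2, u ∉ d.1.2 k) → ip' d ∈ q.1) := by
      intro ν
      by_cases hν : ν ∈ F1 k s
      · obtain ⟨-, W, h1, h2, p, h3, h4⟩ := hν
        exact ⟨(W, p), fun _ => ⟨h1, h2, h3, h4⟩⟩
      · exact ⟨(∅, ∅), fun h => absurd h hν⟩
    choose q hq using hch
    obtain ⟨E', hE', hE'unc, hfr⟩ := exists_free (F1 k s) hunc (fun ν => (q ν).2)
    have hns : ¬ E'.Subsingleton := fun h => hE'unc h.countable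
    let d : DP κ := ⟨(k, fun i => {u | (i = k ∧ u ∈ E') ∨ (i ≠ k ∧ u ∈ w i)}), by
      refine ⟨?_, fun i hi => ?_⟩
      · intro h
        exact hns (h.anti fun u hu => Or.inl ⟨rfl, hu⟩)
      · refine (hw1 i).anti ?_
        rintro u (⟨h, -⟩ | ⟨-, h⟩)
        · exact absurd h hi
        · exact h⟩
    have hdk : d.1.2 k = E' := by
      ext u
      simp [d]
    have hin : ∀ ν ∈ E', ip' d ∈ (q ν).1 := by
      intro ν hν
      obtain ⟨h1, h2, h3, h4⟩ := hq ν (hE' hν)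
      refine h4 d rfl (fun l hl => ?_) ?_ ?_
      · exact Or.inr ⟨(hw2 l hl).1, (hw2 l hl).2⟩
      · rw [hdk]
        exact hν
      · intro u hu hud
        rw [hdk] at hud
        by_cases hνu : ν = u
        · rw [← hνu] at hu
          exact h3 hu
        · exact hfr ν hν u hud hνu hu
    apply hE'unc
    have h5 := ((hWp (ip' d)).image lab).preimage (f := fun ν : κ => (k, ν)) (fun a b hab => by
      simpa using hab)
    refine h5.mono ?_
    intro ν hν
    obtain ⟨h1, h2, -, -⟩ := hq ν (hE' hν)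
    exact ⟨(q ν).1, ⟨h1, hin ν hν⟩, h2⟩
  let F : Finset κ → Set κ := fun G => ⋃ k : ℕ,
    ⋃ s ∈ {s : Finset (ℕ × κ) | (s : Set (ℕ × κ)) ⊆ {l | l.2 ∈ G}}, F1 k s
  have hF : ∀ G, (F G).Countable := by
    intro G
    refine countable_iUnion fun k => (countable_finsets _ ?_).biUnion fun s _ => hF1 k s
    have : {l : ℕ × κ | l.2 ∈ G} = univ ×ˢ (G : Set κ) := by
      ext l
      simp
    rw [this]
    exact countable_univ.prod G.countable_toSet
  obtain ⟨a, ha, hfr⟩ := hfree F hF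
  let z : ZP κ := ⟨fun k => {a k}, fun k => subsingleton_singleton, by
    have : {k : ℕ | ({a k} : Set κ).Nonempty} = univ := by
      ext k
      simp
    rw [this]
    exact infinite_univ⟩
  obtain ⟨W, hWm, hzW⟩ := hW.2 (pt' z)
  obtain ⟨k, ν, hkν⟩ : ∃ k ν, lab W = (k, ν) := ⟨_, _, rfl⟩
  have hν : ν = a k := by
    have h1 := hlab W hWm hzW
    rw [hkν, pt'_mem_Lab] at h1
    exact h1
  obtain ⟨n, e, -, h2⟩ := (openY_iff W).mp (hW.1 W hWm) z hzW
  let s : Finset (ℕ × κ) := ((Finset.range n).erase k).image fun i => (i, a i)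
  have hs : ∀ l ∈ s, l.1 < n ∧ l.1 ≠ k ∧ l.2 = a l.1 := by
    intro l hl
    obtain ⟨i, hi, rfl⟩ := Finset.mem_image.mp hl
    rw [Finset.mem_erase, Finset.mem_range] at hi
    exact ⟨hi.2, hi.1, rfl⟩
  refine hfr k (s.image Prod.snd) ?_ ?_
  · intro c hc
    rw [Finset.coe_image] at hc
    obtain ⟨l, hl, rfl⟩ := hc
    obtain ⟨-, h4, h5⟩ := hs l hl
    exact ⟨l.1, h4, h5.symm⟩
  · refine mem_iUnion.mpr ⟨k, mem_iUnion₂.mpr ⟨s, ?_, ?_⟩⟩
    · intro l hl
      exact Finset.mem_image_of_mem Prod.snd hl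
    · refine ⟨⟨z.1, z.2.1, fun l hl => ⟨(hs l hl).2.1, ?_⟩⟩, W, hWm, ?_, e.erase (a k), ?_, ?_⟩
      · rw [(hs l hl).2.2]
        exact mem_singleton _
      · rw [hkν, hν]
      · exact Finset.notMem_erase _ _
      · intro d hdk hds hdν hdp
        apply h2
        intro i hi
        by_cases hik : i = k
        · subst hik
          refine ⟨singleton_subset_iff.mpr hdν, fun u hu hud => ?_⟩
          by_contra hcon
          exact hdp u (Finset.mem_erase.mpr ⟨hcon, hu⟩) hud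
        · have h3 : a i ∈ d.1.2 i := hds (i, a i) (Finset.mem_image.mpr ⟨i, Finset.mem_erase.mpr
            ⟨hik, Finset.mem_range.mpr hi⟩, rfl⟩)
          refine ⟨singleton_subset_iff.mpr h3, fun u hu hud => ?_⟩
          exact d.2.2 i (fun h => hik (h.trans hdk)) hud h3

theorem Y_not_metalindelof (hfree : FreeSubset κ) : ¬ Metalindelof (YT κ) := by
  intro h
  obtain ⟨𝒲, h1, h2, h3⟩ := h (range Lab) ⟨by rintro _ ⟨l, rfl⟩; exact Lab_open l,
    fun y => by obtain ⟨l, hl⟩ := Lab_cover y; exact ⟨Lab l, ⟨l, rfl⟩, hl⟩⟩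
  refine Y_bad hfree 𝒲 h1 (fun W hW => ?_) h3
  obtain ⟨_, ⟨l, rfl⟩, h⟩ := h2 W hW
  exact ⟨l, h⟩

end negative


/-- If no set has the free subset property, closed mappings with Lindelöf fibres preserve the
metalindelöf property. -/
theorem global_positive (h : ¬ ∃ κ : Type u, FreeSubset κ) (X Y : Type u) [TopologicalSpace X]
    [TopologicalSpace Y] (f : X → Y) (hX : Metalindelof X) (hf : Continuous f) (hcl : IsClosedMap f)
    (hs : Function.Surjective f) (hL : ∀ y, IsLindelof (f ⁻¹' {y})) : Metalindelof Y := by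
  classical
  intro 𝒰 h𝒰
  have hΛ : ¬ FreeSubset (ℕ → Set Y) := fun h' => h ⟨_, h'⟩
  obtain ⟨G, h1, h2, h3, h4⟩ := local_positive hΛ
    (fun l => range fun i : ℕ => fun j : ℕ => l (Nat.pair i j)) (fun l => countable_range _)
    (fun S hS => by
      rcases S.eq_empty_or_nonempty with h0 | h0
      · exact ⟨fun _ => ∅, by rw [h0]; exact empty_subset _⟩
      · obtain ⟨g, rfl⟩ := hS.exists_eq_range h0
        refine ⟨fun k => g k.unpair.1 k.unpair.2, ?_⟩
        rintro _ ⟨i, rfl⟩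
        refine ⟨i, ?_⟩
        funext j
        simp)
    hX f hf hcl hs hL (fun l => if l 0 ∈ 𝒰 then l 0 else ∅) (fun l => by
      split_ifs with h
      · exact h𝒰.1 _ h
      · exact isOpen_empty) (fun y => by
      obtain ⟨U, hU, hy⟩ := h𝒰.2 y
      exact ⟨fun _ => U, by simpa [hU] using hy⟩)
  refine ⟨{A | ∃ l, (G l).Nonempty ∧ A = G l}, ⟨?_, ?_⟩, ?_, ?_⟩
  · rintro _ ⟨l, -, rfl⟩
    exact h1 l
  · intro y
    obtain ⟨l, hl⟩ := h3 y
    exact ⟨G l, ⟨l, ⟨y, hl⟩, rfl⟩, hl⟩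
  · rintro _ ⟨l, ⟨y, hy⟩, rfl⟩
    have := h2 l hy
    split_ifs at this with h0
    · refine ⟨l 0, h0, ?_⟩
      have h5 := h2 l
      simp only [h0, if_true] at h5
      exact h5
    · exact absurd this (notMem_empty _)
  · intro y
    refine ((h4 y).image G).mono ?_
    rintro _ ⟨⟨l, -, rfl⟩, hy⟩
    exact ⟨l, hy, rfl⟩

/-- The following are equivalent: perfect mappings preserve the metalindelöf property; closed
mappings with Lindelöf fibres preserve it; perfect mappings with countable fibres between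
zero-dimensional Hausdorff spaces preserve it; no set has the infinite free subset property. -/
theorem result : List.TFAE [
    ∀ (X Y : Type u) [TopologicalSpace X] [TopologicalSpace Y] (f : X → Y),
      Metalindelof X → IsPerfect f → Metalindelof Y,
    ∀ (X Y : Type u) [TopologicalSpace X] [TopologicalSpace Y] (f : X → Y),
      Metalindelof X → Continuous f → IsClosedMap f → Function.Surjective f →
      (∀ y, IsLindelof (f ⁻¹' {y})) → Metalindelof Y,
    ∀ (X Y : Type u) [TopologicalSpace X] [TopologicalSpace Y] [T2Space X] [T2Space Y] (f : X → Y),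
      TopologicalSpace.IsTopologicalBasis {A : Set X | IsClopen A} →
      TopologicalSpace.IsTopologicalBasis {A : Set Y | IsClopen A} →
      Metalindelof X → IsPerfect f → (∀ y, (f ⁻¹' {y}).Countable) → Metalindelof Y,
    ¬ ∃ κ : Type u, FreeSubset κ] := by
  tfae_have 2 → 1 := fun h X Y _ _ f hX hf =>
    h X Y f hX hf.1 hf.2.1 hf.2.2.1 fun y => (hf.2.2.2 y).isLindelof
  tfae_have 1 → 3 := fun h X Y _ _ _ _ f _ _ hX hf _ => h X Y f hX hf
  tfae_have 3 → 4 := by
    rintro h ⟨κ, hκ⟩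
    have := X_t2 (κ := κ)
    have := Y_t2 (κ := κ)
    exact Y_not_metalindelof hκ (h (XT κ) (YT κ) pr X_basis Y_basis X_metalindelof pr_perfect
      pr_countable)
  tfae_have 4 → 2 := fun h X Y _ _ f hX hf hcl hs hL => global_positive h X Y f hX hf hcl hs hL
  tfae_finish

end Pool.Agent.Results.MP_e848aa_gt.TfaeFreeSubset
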